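import Mathlib

open MeasureTheory Set Metric Filter Topology

noncomputable section

namespace Pool.Agent.Helper88.Robin

abbrev E3 := EuclideanSpace ℝ (Fin 3)
abbrev E2 := EuclideanSpace ℝ (Fin 2)

/-- points of 3-space from coordinates -/
def P3 (x y z : ℝ) : E3 := !₂[x, y, z]
/-- points of the plane from coordinates -/
def P2 (x y : ℝ) : E2 := !₂[x, y]

@[simp] lemma P3_0 (x y z : ℝ) : P3 x y z 0 = x := rfl
@[simp] lemma P3_1 (x y z : ℝ) : P3 x y z 1 = y := rfl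
@[simp] lemma P3_2 (x y z : ℝ) : P3 x y z 2 = z := rfl
@[simp] lemma P2_0 (x y : ℝ) : P2 x y 0 = x := rfl
@[simp] lemma P2_1 (x y : ℝ) : P2 x y 1 = y := rfl

lemma P3_eta (p : E3) : P3 (p 0) (p 1) (p 2) = p := by
  ext i; fin_cases i <;> rfl
lemma P2_eta (p : E2) : P2 (p 0) (p 1) = p := by
  ext i; fin_cases i <;> rfl

/-- coordinates -/
def e2 : E2 ≃ᵐ ℝ × ℝ := (MeasurableEquiv.toLp 2 _).symm.trans MeasurableEquiv.finTwoArrow

lemma e2_apply (p : E2) : e2 p = (p 0, p 1) := rfl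

lemma e2_symm (q : ℝ × ℝ) : e2.symm q = P2 q.1 q.2 := by
  apply e2.injective
  rw [MeasurableEquiv.apply_symm_apply, e2_apply]
  simp

lemma e2_mp : MeasurePreserving e2 := by
  have h1 := EuclideanSpace.volume_preserving_symm_measurableEquiv_toLp (Fin 2)
  have h2 := volume_preserving_finTwoArrow ℝ
  exact h2.comp h1

def e3 : E3 ≃ᵐ ℝ × (ℝ × ℝ) := (MeasurableEquiv.toLp 2 _).symm.trans
  ((MeasurableEquiv.piFinSuccAbove (fun _ : Fin 3 => ℝ) 0).trans
    ((MeasurableEquiv.refl ℝ).prodCongr MeasurableEquiv.finTwoArrow))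

lemma e3_apply (p : E3) : e3 p = (p 0, (p 1, p 2)) := rfl

lemma e3_symm (q : ℝ × (ℝ × ℝ)) : e3.symm q = P3 q.1 q.2.1 q.2.2 := by
  apply e3.injective
  rw [MeasurableEquiv.apply_symm_apply, e3_apply]
  simp

lemma e3_mp : MeasurePreserving e3 := by
  have h1 := EuclideanSpace.volume_preserving_symm_measurableEquiv_toLp (Fin 3)
  have h2 := volume_preserving_piFinSuccAbove (fun _ : Fin 3 => ℝ) 0
  have h3 : MeasurePreserving (Prod.map (id : ℝ → ℝ)
      (MeasurableEquiv.finTwoArrow : (Fin 2 → ℝ) ≃ᵐ ℝ × ℝ)) :=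
    (MeasurePreserving.id volume).prod (volume_preserving_finTwoArrow ℝ)
  exact h3.comp (h2.comp h1)

lemma P3_cont : Continuous (fun q : ℝ × (ℝ × ℝ) => P3 q.1 q.2.1 q.2.2) := by
  unfold P3
  fun_prop

lemma P2_cont : Continuous (fun q : ℝ × ℝ => P2 q.1 q.2) := by
  unfold P2
  fun_prop

lemma P3_dist (x y z x' y' z' : ℝ) : dist (P3 x y z) (P3 x' y' z') ^ 2
    = (x - x') ^ 2 + (y - y') ^ 2 + (z - z') ^ 2 := by
  rw [EuclideanSpace.dist_eq, Real.sq_sqrt (by positivity)]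
  simp [Fin.sum_univ_three, Real.dist_eq, sq_abs]

lemma P2_dist (x y x' y' : ℝ) : dist (P2 x y) (P2 x' y') ^ 2
    = (x - x') ^ 2 + (y - y') ^ 2 := by
  rw [EuclideanSpace.dist_eq, Real.sq_sqrt (by positivity)]
  simp [Fin.sum_univ_two, Real.dist_eq, sq_abs]

instance haus2 : (μH[(2:ℝ)] : Measure E2).IsAddHaarMeasure := by
  have := isAddHaarMeasure_hausdorffMeasure (E := E2)
  simpa using this

/-- scale factor between the 2-dimensional Hausdorff measure and area -/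
def kap : NNReal := (μH[(2:ℝ)] : Measure E2).addHaarScalarFactor volume

lemma haus_eq : (μH[(2:ℝ)] : Measure E2) = kap • volume :=
  Measure.isAddLeftInvariant_eq_smul _ _

lemma kap_pos : 0 < kap := Measure.addHaarScalarFactor_pos_of_isAddHaarMeasure _ _

/-- lower bound for the Hausdorff measure of a section -/
lemma haus_section_ge {s : E2 → E3} {π : E3 → E2} (hs : Measurable s) (hπ : LipschitzWith 1 π)
    (h : ∀ q, π (s q) = q) (D : Set E2) :
    Measure.map s ((μH[(2:ℝ)] : Measure E2).restrict D) ≤ (μH[(2:ℝ)] : Measure E3).restrict (s '' D) := by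
  rw [Measure.le_iff]
  intro S hS
  rw [Measure.map_apply hs hS, Measure.restrict_apply (hs hS), Measure.restrict_apply hS]
  have h1 : s ⁻¹' S ∩ D ⊆ π '' (S ∩ s '' D) := by
    rintro q ⟨hq1, hq2⟩
    exact ⟨s q, ⟨hq1, ⟨q, hq2, rfl⟩⟩, h q⟩
  calc μH[(2:ℝ)] (s ⁻¹' S ∩ D) ≤ μH[(2:ℝ)] (π '' (S ∩ s '' D)) := measure_mono h1
    _ ≤ ((1 : NNReal) : ENNReal) ^ (2:ℝ) * μH[(2:ℝ)] (S ∩ s '' D) :=
        hπ.hausdorffMeasure_image_le (by norm_num) _
    _ = μH[(2:ℝ)] (S ∩ s '' D) := by simp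

/-- upper bound for the Hausdorff measure of a Lipschitz image -/
lemma haus_image_le {s : E2 → E3} {K : NNReal} (hs : Measurable s) (D : Set E2)
    (hK : LipschitzOnWith K s D) :
    (μH[(2:ℝ)] : Measure E3).restrict (s '' D) ≤
      (K ^ 2 : NNReal) • Measure.map s ((μH[(2:ℝ)] : Measure E2).restrict D) := by
  rw [Measure.le_iff]
  intro S hS
  rw [Measure.restrict_apply hS, Measure.smul_apply, Measure.map_apply hs hS,
    Measure.restrict_apply (hs hS)]
  have h1 : S ∩ s '' D ⊆ s '' (s ⁻¹' S ∩ D) := by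
    rintro p ⟨hp, q, hq, rfl⟩
    exact ⟨q, ⟨hp, hq⟩, rfl⟩
  calc μH[(2:ℝ)] (S ∩ s '' D) ≤ μH[(2:ℝ)] (s '' (s ⁻¹' S ∩ D)) := measure_mono h1
    _ ≤ (K : ENNReal) ^ (2:ℝ) * μH[(2:ℝ)] (s ⁻¹' S ∩ D) :=
        (hK.mono inter_subset_right).hausdorffMeasure_image_le (by norm_num)
    _ = _ := by
        rw [ENNReal.smul_def, smul_eq_mul]
        push_cast
        congr 1
        norm_cast

end Pool.Agent.Helper88.Robin
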