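import Mathlib

open MeasureTheory Set Metric Filter Topology

noncomputable section

namespace Pool.Agent.Helper88.Robin

/-- one-dimensional field inequality -/
lemma field1 {g g' F F' : ℝ → ℝ} {H : ℝ} (hH : 0 ≤ H)
    (hg : ∀ x, HasDerivAt g (g' x) x) (hg' : Continuous g')
    (hF : ∀ x, HasDerivAt F (F' x) x) (hF' : Continuous F') :
    ∫ x in (0:ℝ)..H, (F' x - F x ^ 2) * g x ^ 2 ≤
      (∫ x in (0:ℝ)..H, g' x ^ 2) + (F H * g H ^ 2 - F 0 * g 0 ^ 2) := by
  have hgc : Continuous g := continuous_iff_continuousAt.mpr fun x => (hg x).continuousAt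
  have hFc : Continuous F := continuous_iff_continuousAt.mpr fun x => (hF x).continuousAt
  have hd : ∀ x ∈ uIcc (0:ℝ) H, HasDerivAt (fun x => F x * g x ^ 2)
      (F' x * g x ^ 2 + F x * (2 * g x * g' x)) x := by
    intro x _
    have h1 := (hF x).mul ((hg x).pow 2)
    convert! h1 using 1
    simp
  have hint : IntervalIntegrable (fun x => F' x * g x ^ 2 + F x * (2 * g x * g' x)) volume 0 H := by
    apply Continuous.intervalIntegrable
    fun_prop
  have hftc := intervalIntegral.integral_eq_sub_of_hasDerivAt hd hint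
  rw [← hftc, ← intervalIntegral.integral_add]
  · apply intervalIntegral.integral_mono_on hH
    · apply Continuous.intervalIntegrable; fun_prop
    · apply Continuous.intervalIntegrable; fun_prop
    · intro x _
      nlinarith [sq_nonneg (g' x + F x * g x)]
  · apply Continuous.intervalIntegrable; fun_prop
  · apply Continuous.intervalIntegrable; fun_prop

/-- cross-section: the triangle with vertices `(0,0), (A ε,0), (0,ε)` cut at `y < Y` -/
def T (A ε Y : ℝ) : Set (ℝ × ℝ) := {p | 0 < p.1 ∧ p.1 < Y ∧ 0 < p.2 ∧ p.2 < ε - p.1 / A}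

lemma T_isOpen (A ε Y : ℝ) : IsOpen (T A ε Y) := by
  unfold T
  simp only [ofPred_and]
  refine (isOpen_lt continuous_const continuous_fst).inter
    ((isOpen_lt continuous_fst continuous_const).inter
    ((isOpen_lt continuous_const continuous_snd).inter (isOpen_lt continuous_snd (by fun_prop))))

lemma T_subset {A ε Y : ℝ} (hA : 0 < A) : T A ε Y ⊆ Icc 0 Y ×ˢ Icc 0 ε := by
  rintro p ⟨h1, h2, h3, h4⟩
  refine ⟨⟨h1.le, h2.le⟩, ⟨h3.le, ?_⟩⟩
  have : 0 < p.1 / A := by positivity
  linarith

lemma T_integrableOn {A ε Y : ℝ} (hA : 0 < A) {F : ℝ × ℝ → ℝ} (hF : Continuous F) :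
    IntegrableOn F (T A ε Y) :=
  (hF.continuousOn.integrableOn_compact (isCompact_Icc.prod isCompact_Icc)).mono_set
    (T_subset hA)

lemma T_int {A ε Y : ℝ} (hA : 0 < A) (hY0 : 0 ≤ Y) (hY : Y ≤ A * ε) {F : ℝ × ℝ → ℝ}
    (hF : Continuous F) :
    ∫ p in T A ε Y, F p = ∫ y in (0:ℝ)..Y, ∫ z in (0:ℝ)..(ε - y / A), F (y, z) := by
  have hm : MeasurableSet (T A ε Y) := (T_isOpen A ε Y).measurableSet
  rw [← integral_indicator hm, Measure.volume_eq_prod, integral_prod]
  · rw [intervalIntegral.integral_of_le hY0, integral_Ioc_eq_integral_Ioo,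
      ← integral_indicator measurableSet_Ioo]
    apply integral_congr_ae
    filter_upwards with y
    by_cases hy : y ∈ Ioo 0 Y
    · rw [indicator_of_mem hy]
      have h0 : 0 ≤ ε - y / A := by
        have : y / A ≤ ε := by
          rw [div_le_iff₀ hA]
          linarith [hy.2]
        linarith
      rw [intervalIntegral.integral_of_le h0, integral_Ioc_eq_integral_Ioo,
        ← integral_indicator measurableSet_Ioo]
      apply integral_congr_ae
      filter_upwards with z
      by_cases hz : z ∈ Ioo 0 (ε - y / A)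
      · rw [indicator_of_mem hz, indicator_of_mem]
        exact ⟨hy.1, hy.2, hz.1, hz.2⟩
      · rw [indicator_of_notMem hz, indicator_of_notMem]
        rintro ⟨_, _, h3, h4⟩
        exact hz ⟨h3, h4⟩
    · rw [indicator_of_notMem hy]
      apply integral_eq_zero_of_ae
      filter_upwards with z
      rw [indicator_of_notMem]
      · rfl
      · rintro ⟨h1, h2, _, _⟩
        exact hy ⟨h1, h2⟩
  · rw [← Measure.volume_eq_prod]
    exact (T_integrableOn hA hF).integrable_indicator hm

lemma T_int' {A ε : ℝ} (hA : 0 < A) (hε : 0 ≤ ε) {F : ℝ × ℝ → ℝ} (hF : Continuous F) :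
    ∫ p in T A ε (A * ε), F p = ∫ z in (0:ℝ)..ε, ∫ y in (0:ℝ)..(A * (ε - z)), F (y, z) := by
  have hm : MeasurableSet (T A ε (A * ε)) := (T_isOpen A ε _).measurableSet
  rw [← integral_indicator hm, Measure.volume_eq_prod, integral_prod_symm]
  · rw [intervalIntegral.integral_of_le hε, integral_Ioc_eq_integral_Ioo,
      ← integral_indicator measurableSet_Ioo]
    apply integral_congr_ae
    filter_upwards with z
    by_cases hz : z ∈ Ioo 0 ε
    · rw [indicator_of_mem hz]
      have h0 : 0 ≤ A * (ε - z) := by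
        have := hz.2
        apply mul_nonneg hA.le
        linarith
      rw [intervalIntegral.integral_of_le h0, integral_Ioc_eq_integral_Ioo,
        ← integral_indicator measurableSet_Ioo]
      apply integral_congr_ae
      filter_upwards with y
      by_cases hy : y ∈ Ioo 0 (A * (ε - z))
      · rw [indicator_of_mem hy, indicator_of_mem]
        refine ⟨hy.1, ?_, hz.1, ?_⟩
        · have := hy.2
          have h1 := hz.1
          simp only
          nlinarith
        · have : y / A < ε - z := by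
            rw [div_lt_iff₀ hA]
            linarith [hy.2]
          simp only
          linarith
      · rw [indicator_of_notMem hy, indicator_of_notMem]
        rintro ⟨h1, _, _, h4⟩
        apply hy
        refine ⟨h1, ?_⟩
        simp only at h4 h1
        have : y / A < ε - z := by linarith
        rw [div_lt_iff₀ hA] at this
        linarith
    · rw [indicator_of_notMem hz]
      apply integral_eq_zero_of_ae
      filter_upwards with y
      rw [indicator_of_notMem]
      · rfl
      · rintro ⟨h1, _, h3, h4⟩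
        apply hz
        refine ⟨h3, ?_⟩
        simp only at h1 h4
        have : 0 < y / A := by positivity
        linarith
  · rw [← Measure.volume_eq_prod]
    exact (T_integrableOn hA hF).integrable_indicator hm

/-- a function of two variables with continuous partial derivatives -/
structure Diff2 (g gy gz : ℝ × ℝ → ℝ) : Prop where
  cg : Continuous g
  cy : Continuous gy
  cz : Continuous gz
  dy : ∀ y z, HasDerivAt (fun s => g (s, z)) (gy (y, z)) y
  dz : ∀ y z, HasDerivAt (fun s => g (y, s)) (gz (y, z)) z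

lemma zline {g gy gz : ℝ × ℝ → ℝ} (hg : Diff2 g gy gz) {H b c : ℝ} (y : ℝ) (hH : 0 ≤ H)
    (hc : 0 ≤ c) (hcH : c * H ≤ 2) :
    (b * c - b ^ 2) * ∫ z in (0:ℝ)..H, g (y, z) ^ 2 ≤
      (∫ z in (0:ℝ)..H, gz (y, z) ^ 2) + (b * (c * H - 1) * g (y, H) ^ 2 + b * g (y, 0) ^ 2) := by
  have h1 := field1 (g := fun z => g (y, z)) (g' := fun z => gz (y, z))
    (F := fun z => b * (c * z - 1)) (F' := fun _ => b * c) hH (fun z => hg.dz y z)
    (hg.cz.comp (by fun_prop)) (fun z => by
      have := (((hasDerivAt_id z).const_mul c).sub_const 1).const_mul b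
      simpa using this) (by fun_prop)
  have h2 : (b * c - b ^ 2) * ∫ z in (0:ℝ)..H, g (y, z) ^ 2 ≤
      ∫ z in (0:ℝ)..H, (b * c - (b * (c * z - 1)) ^ 2) * g (y, z) ^ 2 := by
    rw [← intervalIntegral.integral_const_mul]
    have hcg := hg.cg
    apply intervalIntegral.integral_mono_on hH
    · apply Continuous.intervalIntegrable; fun_prop
    · apply Continuous.intervalIntegrable; fun_prop
    · intro z hz
      have hz1 : 0 ≤ c * z := mul_nonneg hc hz.1
      have hz2 : c * z ≤ 2 := (mul_le_mul_of_nonneg_left hz.2 hc).trans hcH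
      have hz3 : (c * z - 1) ^ 2 ≤ 1 := by nlinarith
      have hz4 : (b * (c * z - 1)) ^ 2 ≤ b ^ 2 := by
        rw [mul_pow]; nlinarith [sq_nonneg b]
      exact mul_le_mul_of_nonneg_right (by linarith) (sq_nonneg _)
  refine h2.trans (h1.trans (le_of_eq ?_))
  ring

lemma yline {g gy gz : ℝ × ℝ → ℝ} (hg : Diff2 g gy gz) {Y b c A : ℝ} (z : ℝ) (hY : 0 ≤ Y)
    (hc : 0 ≤ c) (hcY : c * Y ≤ 2 * A) :
    (b * c - 4 * b ^ 2 * A ^ 2) * ∫ y in (0:ℝ)..Y, g (y, z) ^ 2 ≤
      (∫ y in (0:ℝ)..Y, gy (y, z) ^ 2) + b * (c * Y) * g (Y, z) ^ 2 := by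
  have h1 := field1 (g := fun y => g (y, z)) (g' := fun y => gy (y, z))
    (F := fun y => b * (c * y)) (F' := fun _ => b * c) hY (fun y => hg.dy y z)
    (hg.cy.comp (by fun_prop)) (fun y => by
      have := ((hasDerivAt_id y).const_mul c).const_mul b
      simpa using this) (by fun_prop)
  have h2 : (b * c - 4 * b ^ 2 * A ^ 2) * ∫ y in (0:ℝ)..Y, g (y, z) ^ 2 ≤
      ∫ y in (0:ℝ)..Y, (b * c - (b * (c * y)) ^ 2) * g (y, z) ^ 2 := by
    rw [← intervalIntegral.integral_const_mul]
    have hcg := hg.cg
    apply intervalIntegral.integral_mono_on hY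
    · apply Continuous.intervalIntegrable; fun_prop
    · apply Continuous.intervalIntegrable; fun_prop
    · intro y hy
      have hz1 : 0 ≤ c * y := mul_nonneg hc hy.1
      have hz2 : c * y ≤ 2 * A := (mul_le_mul_of_nonneg_left hy.2 hc).trans hcY
      have hz3 : (c * y) ^ 2 ≤ 4 * A ^ 2 := by nlinarith
      have hz4 : (b * (c * y)) ^ 2 ≤ 4 * b ^ 2 * A ^ 2 := by
        rw [mul_pow]; nlinarith [sq_nonneg b]
      exact mul_le_mul_of_nonneg_right (by linarith) (sq_nonneg _)
  refine h2.trans (h1.trans (le_of_eq ?_))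
  ring

lemma par_cont {F : ℝ × ℝ → ℝ} (hF : Continuous F) {s : ℝ → ℝ} (hs : Continuous s) :
    Continuous (fun y => ∫ z in (0:ℝ)..s y, F (y, z)) := by
  have := intervalIntegral.continuous_parametric_intervalIntegral_of_continuous (μ := volume)
    (f := fun y z => F (y, z)) (a₀ := 0) (s := s) hF hs
  exact this

lemma par_cont' {F : ℝ × ℝ → ℝ} (hF : Continuous F) {s : ℝ → ℝ} (hs : Continuous s) :
    Continuous (fun z => ∫ y in (0:ℝ)..s z, F (y, z)) := by
  have := intervalIntegral.continuous_parametric_intervalIntegral_of_continuous (μ := volume)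
    (f := fun z y => F (y, z)) (a₀ := 0) (s := s) (by
      have : Continuous (fun p : ℝ × ℝ => F (p.2, p.1)) := by fun_prop
      exact this) hs
  exact this

/-- lower bound for the cross-sectional Robin energy, any cut -/
lemma cross_all {g gy gz : ℝ × ℝ → ℝ} (hg : Diff2 g gy gz) {A ε Y b : ℝ} (hA : 0 < A)
    (hY0 : 0 ≤ Y) (hY : Y ≤ A * ε) (hb : 0 ≤ b) :
    (2 * b / ε - b ^ 2) * ∫ p in T A ε Y, g p ^ 2 ≤
      (∫ p in T A ε Y, (gy p ^ 2 + gz p ^ 2)) +
        b * ∫ y in (0:ℝ)..Y, (g (y, 0) ^ 2 + g (y, ε - y / A) ^ 2) := by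
  have c1 := hg.cg
  have c2 := hg.cy
  have c3 := hg.cz
  have hstep : (∫ p in T A ε Y, gz p ^ 2) ≤ ∫ p in T A ε Y, (gy p ^ 2 + gz p ^ 2) := by
    apply setIntegral_mono (T_integrableOn hA (by fun_prop)) (T_integrableOn hA (by fun_prop))
    intro p
    simp only
    nlinarith [sq_nonneg (gy p)]
  refine le_trans ?_ (add_le_add_left hstep _)
  have k1 : Continuous (fun y => ∫ z in (0:ℝ)..(ε - y / A), g (y, z) ^ 2) :=
    par_cont (F := fun p => g p ^ 2) (by fun_prop) (by fun_prop)
  have k2 : Continuous (fun y => ∫ z in (0:ℝ)..(ε - y / A), gz (y, z) ^ 2) :=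
    par_cont (F := fun p => gz p ^ 2) (by fun_prop) (by fun_prop)
  rw [T_int hA hY0 hY (by fun_prop), T_int hA hY0 hY (by fun_prop),
    ← intervalIntegral.integral_const_mul, ← intervalIntegral.integral_const_mul,
    ← intervalIntegral.integral_add (k2.intervalIntegrable _ _)
      (Continuous.intervalIntegrable (by fun_prop) _ _)]
  apply intervalIntegral.integral_mono_on hY0
  · exact Continuous.intervalIntegrable (by fun_prop) _ _
  · exact Continuous.intervalIntegrable (by fun_prop) _ _
  · intro y hy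
    have hh0 : 0 ≤ ε - y / A := by
      have : y / A ≤ ε := by
        rw [div_le_iff₀ hA]
        linarith [hy.2]
      linarith
    rcases hh0.eq_or_lt with h0 | h0
    · rw [← h0]
      simp
      positivity
    · have := zline hg (H := ε - y / A) (b := b) (c := 2 / (ε - y / A)) y hh0 (by positivity)
        (by rw [div_mul_cancel₀ _ h0.ne'])
      rw [div_mul_cancel₀ _ h0.ne'] at this
      have h3 : 2 * b / ε - b ^ 2 ≤ b * (2 / (ε - y / A)) - b ^ 2 := by
        have h4 : 2 / ε ≤ 2 / (ε - y / A) := by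
          have : 0 ≤ y / A := div_nonneg hy.1 hA.le
          gcongr
          linarith
        have h5 := mul_le_mul_of_nonneg_left h4 hb
        have h6 : b * (2 / ε) = 2 * b / ε := by ring
        linarith
      have h7 : 0 ≤ ∫ z in (0:ℝ)..(ε - y / A), g (y, z) ^ 2 :=
        intervalIntegral.integral_nonneg hh0 (fun z _ => sq_nonneg _)
      have h8 := mul_le_mul_of_nonneg_right h3 h7
      linarith

/-- lower bound for the cross-sectional Robin energy, full triangle -/
lemma cross_full {g gy gz : ℝ × ℝ → ℝ} (hg : Diff2 g gy gz) {A ε b : ℝ} (hA : 0 < A)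
    (hε : 0 < ε) :
    (4 * b / ε - b ^ 2 * (1 + 4 * A ^ 2)) * ∫ p in T A ε (A * ε), g p ^ 2 ≤
      (∫ p in T A ε (A * ε), (gy p ^ 2 + gz p ^ 2)) +
        b * ∫ y in (0:ℝ)..(A * ε), (g (y, 0) ^ 2 + g (y, ε - y / A) ^ 2) := by
  have c1 := hg.cg
  have c2 := hg.cy
  have c3 := hg.cz
  have hAε : 0 ≤ A * ε := by positivity
  have k1 : Continuous (fun y => ∫ z in (0:ℝ)..(ε - y / A), g (y, z) ^ 2) :=
    par_cont (F := fun p => g p ^ 2) (by fun_prop) (by fun_prop)
  have k2 : Continuous (fun y => ∫ z in (0:ℝ)..(ε - y / A), gz (y, z) ^ 2) :=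
    par_cont (F := fun p => gz p ^ 2) (by fun_prop) (by fun_prop)
  have k3 : Continuous (fun z => ∫ y in (0:ℝ)..(A * (ε - z)), g (y, z) ^ 2) :=
    par_cont' (F := fun p => g p ^ 2) (by fun_prop) (by fun_prop)
  have k4 : Continuous (fun z => ∫ y in (0:ℝ)..(A * (ε - z)), gy (y, z) ^ 2) :=
    par_cont' (F := fun p => gy p ^ 2) (by fun_prop) (by fun_prop)
  -- z-lines
  have hz : (b * (2 / ε) - b ^ 2) * (∫ p in T A ε (A * ε), g p ^ 2) ≤
      (∫ p in T A ε (A * ε), gz p ^ 2) + ∫ y in (0:ℝ)..(A * ε),
        (b * (2 / ε * (ε - y / A) - 1) * g (y, ε - y / A) ^ 2 + b * g (y, 0) ^ 2) := by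
    rw [T_int hA hAε le_rfl (by fun_prop), T_int hA hAε le_rfl (by fun_prop),
      ← intervalIntegral.integral_const_mul,
      ← intervalIntegral.integral_add (k2.intervalIntegrable _ _)
        (Continuous.intervalIntegrable (by fun_prop) _ _)]
    apply intervalIntegral.integral_mono_on hAε
    · exact Continuous.intervalIntegrable (by fun_prop) _ _
    · exact Continuous.intervalIntegrable (by fun_prop) _ _
    · intro y hy
      have hh0 : 0 ≤ ε - y / A := by
        have : y / A ≤ ε := by
          rw [div_le_iff₀ hA]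
          linarith [hy.2]
        linarith
      apply zline hg y hh0 (by positivity)
      have : ε - y / A ≤ ε := by
        have := div_nonneg hy.1 hA.le
        linarith
      calc 2 / ε * (ε - y / A) ≤ 2 / ε * ε := by gcongr
        _ = 2 := by field_simp
  -- y-lines
  have hy : (b * (2 / ε) - 4 * b ^ 2 * A ^ 2) * (∫ p in T A ε (A * ε), g p ^ 2) ≤
      (∫ p in T A ε (A * ε), gy p ^ 2) + ∫ z in (0:ℝ)..ε,
        b * (2 / ε * (A * (ε - z))) * g (A * (ε - z), z) ^ 2 := by
    rw [T_int' hA hε.le (by fun_prop), T_int' hA hε.le (by fun_prop),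
      ← intervalIntegral.integral_const_mul,
      ← intervalIntegral.integral_add (k4.intervalIntegrable _ _)
        (Continuous.intervalIntegrable (by fun_prop) _ _)]
    apply intervalIntegral.integral_mono_on hε.le
    · exact Continuous.intervalIntegrable (by fun_prop) _ _
    · exact Continuous.intervalIntegrable (by fun_prop) _ _
    · intro z hz
      have hz2 := hz.2
      have hz1 := hz.1
      have hh0 : 0 ≤ A * (ε - z) := by
        apply mul_nonneg hA.le
        linarith
      apply yline hg z hh0 (by positivity)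
      calc 2 / ε * (A * (ε - z)) ≤ 2 / ε * (A * ε) := by
            gcongr
            linarith
        _ = 2 * A := by field_simp
  -- substitution
  have hsub : ∫ z in (0:ℝ)..ε, b * (2 / ε * (A * (ε - z))) * g (A * (ε - z), z) ^ 2
      = ∫ y in (0:ℝ)..(A * ε), (b * (2 / ε * y) * g (y, ε - y / A) ^ 2) / A := by
    have h := intervalIntegral.integral_comp_sub_mul
      (fun y => (b * (2 / ε * y) * g (y, ε - y / A) ^ 2)) hA.ne' (A * ε) (a := 0) (b := ε)
    have e1 : ∀ z, (b * (2 / ε * (A * ε - A * z)) * g (A * ε - A * z, ε - (A * ε - A * z) / A) ^ 2)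
        = b * (2 / ε * (A * (ε - z))) * g (A * (ε - z), z) ^ 2 := by
      intro z
      have : ε - (A * ε - A * z) / A = z := by field_simp; ring
      rw [this]
      have : A * ε - A * z = A * (ε - z) := by ring
      rw [this]
    simp_rw [e1] at h
    rw [h, intervalIntegral.integral_div, sub_self, mul_zero, sub_zero, smul_eq_mul]
    ring
  have hsum : (∫ y in (0:ℝ)..(A * ε),
        (b * (2 / ε * (ε - y / A) - 1) * g (y, ε - y / A) ^ 2 + b * g (y, 0) ^ 2))
      + (∫ y in (0:ℝ)..(A * ε), (b * (2 / ε * y) * g (y, ε - y / A) ^ 2) / A)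
      = b * ∫ y in (0:ℝ)..(A * ε), (g (y, 0) ^ 2 + g (y, ε - y / A) ^ 2) := by
    rw [← intervalIntegral.integral_add (Continuous.intervalIntegrable (by fun_prop) _ _)
      (Continuous.intervalIntegrable (by fun_prop) _ _), ← intervalIntegral.integral_const_mul]
    apply intervalIntegral.integral_congr
    intro y _
    simp only
    field_simp
    ring
  have hadd : (∫ p in T A ε (A * ε), (gy p ^ 2 + gz p ^ 2)) =
      (∫ p in T A ε (A * ε), gy p ^ 2) + ∫ p in T A ε (A * ε), gz p ^ 2 :=
    integral_add (T_integrableOn hA (by fun_prop)) (T_integrableOn hA (by fun_prop))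
  rw [hadd]
  rw [hsub] at hy
  have e5 : 4 * b / ε - b ^ 2 * (1 + 4 * A ^ 2)
      = (b * (2 / ε) - b ^ 2) + (b * (2 / ε) - 4 * b ^ 2 * A ^ 2) := by ring
  rw [e5, add_mul]
  linarith

end Pool.Agent.Helper88.Robin
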