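import Mathlib
import Pool.Agent.Helper88.Cross
import Pool.Agent.Helper88.Coord

open MeasureTheory Set Metric Filter Topology

noncomputable section

namespace Pool.Agent.Helper88.Robin

/-- slicing a set integral over a product along the first coordinate -/
lemma slice_integral {Z : Type*} [MeasurableSpace Z] {ν : Measure Z} [SFinite ν]
    {S : Set (ℝ × Z)} (hS : MeasurableSet S) {I : Set ℝ} (hI : MeasurableSet I)
    (hSI : ∀ p ∈ S, p.1 ∈ I) {F : ℝ × Z → ℝ}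
    (hF : IntegrableOn F S ((volume : Measure ℝ).prod ν)) :
    (∫ p in S, F p ∂((volume : Measure ℝ).prod ν) =
      ∫ x in I, ∫ q in {q | (x, q) ∈ S}, F (x, q) ∂ν) ∧
    IntegrableOn (fun x => ∫ q in {q | (x, q) ∈ S}, F (x, q) ∂ν) I := by
  have hi : Integrable (S.indicator F) ((volume : Measure ℝ).prod ν) := hF.integrable_indicator hS
  have hsl : ∀ x, MeasurableSet {q | (x, q) ∈ S} := fun x => measurable_prodMk_left hS
  have he : ∀ x, ∫ q, S.indicator F (x, q) ∂ν = ∫ q in {q | (x, q) ∈ S}, F (x, q) ∂ν := by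
    intro x
    rw [← integral_indicator (hsl x)]
    rfl
  constructor
  · rw [← integral_indicator hS, integral_prod _ hi, ← integral_indicator hI]
    apply integral_congr_ae
    filter_upwards with x
    rw [he x]
    by_cases hx : x ∈ I
    · rw [indicator_of_mem hx]
    · rw [indicator_of_notMem hx]
      have : {q | (x, q) ∈ S} = ∅ := by
        ext q
        simp only [mem_empty_iff_false, iff_false]
        intro hq
        exact hx (hSI _ hq)
      rw [this]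
      simp
  · have := hi.integral_prod_left
    simp_rw [he] at this
    exact this.integrableOn

/-- length profile of the base -/
def mm (a x : ℝ) : ℝ := a + 2 * a ^ 2 * (1 - |x|)
/-- effective upper bound of the second coordinate -/
def YY (a ε x : ℝ) : ℝ := min (ε * mm a x) (a ^ 2 * ε)
/-- the thin polytope -/
def Om (a ε : ℝ) : Set E3 :=
  {p | |p 0| < 1 ∧ 0 < p 1 ∧ p 1 < ε * mm a (p 0) ∧ 0 < p 2 ∧ p 2 < ε - p 1 / a ^ 2}

lemma mm_cont (a : ℝ) : Continuous (mm a) := by unfold mm; fun_prop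
lemma YY_cont (a ε : ℝ) : Continuous (YY a ε) := by
  have := mm_cont a
  unfold YY; fun_prop

lemma coord_cont (i : Fin 3) : Continuous (fun p : E3 => p i) :=
  (EuclideanSpace.proj i : E3 →L[ℝ] ℝ).continuous
lemma coord_cont2 (i : Fin 2) : Continuous (fun p : E2 => p i) :=
  (EuclideanSpace.proj i : E2 →L[ℝ] ℝ).continuous

lemma mem_Om {a ε : ℝ} (ha : 0 < a) (p : E3) :
    p ∈ Om a ε ↔ p 0 ∈ Ioo (-1:ℝ) 1 ∧ (p 1, p 2) ∈ T (a ^ 2) ε (YY a ε (p 0)) := by
  have ha2 : 0 < a ^ 2 := by positivity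
  constructor
  · rintro ⟨h0, h1, h2, h3, h4⟩
    refine ⟨abs_lt.mp h0, h1, ?_, h3, h4⟩
    apply lt_min h2
    have : p 1 / a ^ 2 < ε := by linarith
    rw [div_lt_iff₀ ha2] at this
    simp only
    linarith
  · rintro ⟨h0, h1, h2, h3, h4⟩
    exact ⟨abs_lt.mpr h0, h1, lt_of_lt_of_le h2 (min_le_left _ _), h3, h4⟩

lemma Om_isOpen (a ε : ℝ) : IsOpen (Om a ε) := by
  unfold Om
  have h0 := coord_cont 0
  have h1 := coord_cont 1
  have h2 := coord_cont 2
  have hm := mm_cont a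
  simp only [ofPred_and]
  refine (isOpen_lt (by fun_prop) (by fun_prop)).inter
    ((isOpen_lt (by fun_prop) (by fun_prop)).inter
    ((isOpen_lt (by fun_prop) (by fun_prop)).inter
    ((isOpen_lt (by fun_prop) (by fun_prop)).inter (isOpen_lt (by fun_prop) (by fun_prop)))))

lemma Om_convex {a ε : ℝ} (hε : 0 < ε) : Convex ℝ (Om a ε) := by
  intro p hp q hq s t hs ht hst
  obtain ⟨p0, p1, p2, p3, p4⟩ := hp
  obtain ⟨q0, q1, q2, q3, q4⟩ := hq
  have e0 : (s • p + t • q) 0 = s * p 0 + t * q 0 := by simp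
  have e1 : (s • p + t • q) 1 = s * p 1 + t * q 1 := by simp
  have e2 : (s • p + t • q) 2 = s * p 2 + t * q 2 := by simp
  have habs : |s * p 0 + t * q 0| ≤ s * |p 0| + t * |q 0| := by
    calc |s * p 0 + t * q 0| ≤ |s * p 0| + |t * q 0| := abs_add_le _ _
      _ = s * |p 0| + t * |q 0| := by rw [abs_mul, abs_mul, abs_of_nonneg hs, abs_of_nonneg ht]
  have key : ∀ {u v : ℝ}, 0 < u → 0 < v → 0 < s * u + t * v := by
    intro u v hu hv
    rcases hs.eq_or_lt with h | h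
    · have : t = 1 := by linarith
      rw [← h, this]; simpa using hv
    · have := mul_pos h hu
      have := mul_nonneg ht hv.le
      linarith
  refine ⟨?_, ?_, ?_, ?_, ?_⟩
  · rw [e0]
    have := key (sub_pos.mpr p0) (sub_pos.mpr q0)
    nlinarith
  · rw [e1]; exact key p1 q1
  · rw [e0, e1]
    unfold mm at *
    have := key (sub_pos.mpr p2) (sub_pos.mpr q2)
    have h2 : 0 ≤ ε * (2 * a ^ 2) := by positivity
    have h3 := mul_le_mul_of_nonneg_left habs h2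
    have e : s * (ε * (a + 2 * a ^ 2 * (1 - |p 0|)) - p 1)
        + t * (ε * (a + 2 * a ^ 2 * (1 - |q 0|)) - q 1)
        = (s + t) * (ε * (a + 2 * a ^ 2)) - ε * (2 * a ^ 2) * (s * |p 0| + t * |q 0|)
          - (s * p 1 + t * q 1) := by ring
    have e' : ε * (a + 2 * a ^ 2 * (1 - |s * p 0 + t * q 0|))
        = ε * (a + 2 * a ^ 2) - ε * (2 * a ^ 2) * |s * p 0 + t * q 0| := by ring
    rw [e, hst] at this
    rw [e']
    linarith
  · rw [e2]; exact key p3 q3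
  · rw [e1, e2]
    have := key (sub_pos.mpr p4) (sub_pos.mpr q4)
    have e : s * (ε - p 1 / a ^ 2 - p 2) + t * (ε - q 1 / a ^ 2 - q 2)
      = (s + t) * ε - (s * p 1 + t * q 1) / a ^ 2 - (s * p 2 + t * q 2) := by ring
    rw [e, hst] at this
    linarith

/-- bounding box -/
lemma Om_box {a ε : ℝ} (ha : 0 < a) {p : E3} (hp : p ∈ Om a ε) :
    p 0 ∈ Icc (-1:ℝ) 1 ∧ p 1 ∈ Icc 0 (a ^ 2 * ε) ∧ p 2 ∈ Icc 0 ε := by
  rw [mem_Om ha] at hp
  obtain ⟨h0, h1, h2, h3, h4⟩ := hp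
  refine ⟨⟨h0.1.le, h0.2.le⟩, ⟨h1.le, (h2.trans_le (min_le_right _ _)).le⟩, ⟨h3.le, ?_⟩⟩
  have : 0 < p 1 / a ^ 2 := by
    have : 0 < p 1 := h1
    positivity
  simp only at h4
  linarith

lemma Om_bounded {a ε : ℝ} (ha : 0 < a) : Bornology.IsBounded (Om a ε) := by
  have hb : Bornology.IsBounded
      ((fun q : ℝ × (ℝ × ℝ) => P3 q.1 q.2.1 q.2.2) '' (Icc (-1:ℝ) 1 ×ˢ (Icc 0 (a ^ 2 * ε) ×ˢ Icc 0 ε))) :=
    ((isCompact_Icc.prod (isCompact_Icc.prod isCompact_Icc)).image P3_cont).isBounded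
  apply hb.subset
  intro p hp
  obtain ⟨h0, h1, h2⟩ := Om_box ha hp
  exact ⟨(p 0, (p 1, p 2)), ⟨h0, h1, h2⟩, P3_eta p⟩

lemma YY_pos {a ε x : ℝ} (ha : 0 < a) (hε : 0 < ε) (hx : |x| ≤ 1) : 0 < YY a ε x := by
  unfold YY mm
  apply lt_min
  · have : 0 ≤ 2 * a ^ 2 * (1 - |x|) := by
      apply mul_nonneg (by positivity)
      linarith
    positivity
  · positivity

lemma Om_nonempty {a ε : ℝ} (ha : 0 < a) (hε : 0 < ε) : (Om a ε).Nonempty := by
  set Y := YY a ε 0 with hY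
  have hY0 : 0 < Y := YY_pos ha hε (by simp)
  have ha2 : 0 < a ^ 2 := by positivity
  refine ⟨P3 0 (Y / 2) (ε / 4), ?_⟩
  rw [mem_Om ha]
  have h1 : Y ≤ a ^ 2 * ε := min_le_right _ _
  refine ⟨by simp, ?_⟩
  simp only [P3_0, P3_1, P3_2]
  refine ⟨by simpa using hY0, ?_, by simpa using hε, ?_⟩
  · simp only
    linarith
  · simp only
    have : Y / 2 / a ^ 2 ≤ ε / 2 := by
      rw [div_le_iff₀ ha2]
      linarith
    linarith

/-- iterated integrals over the polytope -/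
lemma Om_int {a ε : ℝ} (ha : 0 < a) {F : E3 → ℝ} (hF : IntegrableOn F (Om a ε)) :
    (∫ p in Om a ε, F p = ∫ x in Ioo (-1:ℝ) 1, ∫ q in T (a ^ 2) ε (YY a ε x), F (P3 x q.1 q.2)) ∧
    IntegrableOn (fun x => ∫ q in T (a ^ 2) ε (YY a ε x), F (P3 x q.1 q.2)) (Ioo (-1:ℝ) 1) := by
  have hmp : MeasurePreserving e3.symm := e3_mp.symm
  set S : Set (ℝ × (ℝ × ℝ)) := e3.symm ⁻¹' (Om a ε) with hS
  have hSm : MeasurableSet S := e3.symm.measurable (Om_isOpen a ε).measurableSet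
  have h1 : ∫ p in S, F (e3.symm p) = ∫ p in Om a ε, F p :=
    hmp.setIntegral_preimage_emb e3.symm.measurableEmbedding F (Om a ε)
  have h2 : IntegrableOn (F ∘ e3.symm) S := by
    rw [hS, hmp.integrableOn_comp_preimage e3.symm.measurableEmbedding]
    exact hF
  have hsl : ∀ x ∈ Ioo (-1:ℝ) 1, {q : ℝ × ℝ | (x, q) ∈ S} = T (a ^ 2) ε (YY a ε x) := by
    intro x hx
    ext q
    have : (x, q) ∈ S ↔ P3 x q.1 q.2 ∈ Om a ε := by
      rw [hS, mem_preimage, e3_symm]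
    rw [mem_ofPred_eq, this, mem_Om ha]
    simp only [P3_0, P3_1, P3_2]
    exact ⟨fun h => h.2, fun h => ⟨hx, h⟩⟩
  have h3 := slice_integral (ν := (volume : Measure (ℝ × ℝ))) hSm (I := Ioo (-1:ℝ) 1)
    measurableSet_Ioo (by
      intro p hp
      have : P3 p.1 p.2.1 p.2.2 ∈ Om a ε := by rw [← e3_symm]; exact hp
      rw [mem_Om ha] at this
      exact this.1) (F := F ∘ e3.symm) h2
  have h4 : ∀ x ∈ Ioo (-1:ℝ) 1, ∫ q in {q : ℝ × ℝ | (x, q) ∈ S}, (F ∘ e3.symm) (x, q)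
      = ∫ q in T (a ^ 2) ε (YY a ε x), F (P3 x q.1 q.2) := by
    intro x hx
    rw [hsl x hx]
    simp only [Function.comp_apply, e3_symm]
  constructor
  · rw [← h1]
    refine h3.1.trans ?_
    exact setIntegral_congr_fun measurableSet_Ioo h4
  · exact h3.2.congr_fun h4 measurableSet_Ioo

/-- the base -/
def DD (a ε : ℝ) : Set E2 := {q | q 0 ∈ Ioo (-1:ℝ) 1 ∧ q 1 ∈ Ioo 0 (YY a ε (q 0))}

lemma DD_isOpen (a ε : ℝ) : IsOpen (DD a ε) := by
  have h0 := coord_cont2 0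
  have h1 := coord_cont2 1
  have hY := YY_cont a ε
  have : DD a ε = {q | -1 < q 0} ∩ ({q | q 0 < 1} ∩ ({q | 0 < q 1} ∩ {q | q 1 < YY a ε (q 0)})) := by
    ext q
    simp [DD, mem_Ioo, and_assoc]
  rw [this]
  refine (isOpen_lt (by fun_prop) (by fun_prop)).inter
    ((isOpen_lt (by fun_prop) (by fun_prop)).inter
    ((isOpen_lt (by fun_prop) (by fun_prop)).inter (isOpen_lt (by fun_prop) (by fun_prop))))

lemma DD_int {a ε : ℝ} {G : E2 → ℝ} (hG : IntegrableOn G (DD a ε)) :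
    (∫ p in DD a ε, G p = ∫ x in Ioo (-1:ℝ) 1, ∫ y in Ioo 0 (YY a ε x), G (P2 x y)) ∧
    IntegrableOn (fun x => ∫ y in Ioo 0 (YY a ε x), G (P2 x y)) (Ioo (-1:ℝ) 1) := by
  have hmp : MeasurePreserving e2.symm := e2_mp.symm
  set S : Set (ℝ × ℝ) := e2.symm ⁻¹' (DD a ε) with hS
  have hSm : MeasurableSet S := e2.symm.measurable (DD_isOpen a ε).measurableSet
  have h1 : ∫ p in S, G (e2.symm p) = ∫ p in DD a ε, G p :=
    hmp.setIntegral_preimage_emb e2.symm.measurableEmbedding G (DD a ε)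
  have h2 : IntegrableOn (G ∘ e2.symm) S := by
    rw [hS, hmp.integrableOn_comp_preimage e2.symm.measurableEmbedding]
    exact hG
  have hmem : ∀ x y, (x, y) ∈ S ↔ x ∈ Ioo (-1:ℝ) 1 ∧ y ∈ Ioo 0 (YY a ε x) := by
    intro x y
    rw [hS, mem_preimage, e2_symm]
    rfl
  have hsl : ∀ x ∈ Ioo (-1:ℝ) 1, {y : ℝ | (x, y) ∈ S} = Ioo 0 (YY a ε x) := by
    intro x hx
    ext y
    rw [mem_ofPred_eq, hmem]
    exact ⟨fun h => h.2, fun h => ⟨hx, h⟩⟩
  have h3 := slice_integral (ν := (volume : Measure ℝ)) hSm (I := Ioo (-1:ℝ) 1)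
    measurableSet_Ioo (by
      rintro ⟨x, y⟩ hp
      exact ((hmem x y).mp hp).1) (F := G ∘ e2.symm) h2
  have h4 : ∀ x ∈ Ioo (-1:ℝ) 1, ∫ y in {y : ℝ | (x, y) ∈ S}, (G ∘ e2.symm) (x, y)
      = ∫ y in Ioo 0 (YY a ε x), G (P2 x y) := by
    intro x hx
    rw [hsl x hx]
    simp only [Function.comp_apply, e2_symm]
  constructor
  · rw [← h1]
    refine h3.1.trans ?_
    exact setIntegral_congr_fun measurableSet_Ioo h4
  · exact h3.2.congr_fun h4 measurableSet_Ioo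

end Pool.Agent.Helper88.Robin
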