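import Mathlib
import Pool.Agent.Helper88.Dom

open MeasureTheory Set Metric Filter Topology

noncomputable section

namespace Pool.Agent.Helper88.Robin

lemma lip_of_sq {X Y : Type*} [PseudoMetricSpace X] [PseudoMetricSpace Y] {s : X → Y} {K : NNReal}
    {S : Set X} (h : ∀ q ∈ S, ∀ q' ∈ S, dist (s q) (s q') ^ 2 ≤ K ^ 2 * dist q q' ^ 2) :
    LipschitzOnWith K s S := by
  apply LipschitzOnWith.of_dist_le_mul
  intro q hq q' hq'
  have h1 := h q hq q' hq'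
  rw [← mul_pow] at h1
  exact le_of_sq_le_sq h1 (by positivity)

lemma dist2 (q q' : E2) : dist q q' ^ 2 = (q 0 - q' 0) ^ 2 + (q 1 - q' 1) ^ 2 := by
  conv_lhs => rw [← P2_eta q, ← P2_eta q']
  rw [P2_dist]

lemma dist3 (q q' : E3) : dist q q' ^ 2
    = (q 0 - q' 0) ^ 2 + (q 1 - q' 1) ^ 2 + (q 2 - q' 2) ^ 2 := by
  conv_lhs => rw [← P3_eta q, ← P3_eta q']
  rw [P3_dist]

/-- projection to the first two coordinates -/
def proj (p : E3) : E2 := P2 (p 0) (p 1)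

lemma proj_lip : LipschitzWith 1 proj := by
  rw [← lipschitzOnWith_univ]
  apply lip_of_sq
  intro q _ q' _
  rw [proj, proj, P2_dist, dist3]
  simp
  positivity

/-- parametrisations of the faces -/
def s0 (q : E2) : E3 := P3 (q 0) (q 1) 0
def s1 (a ε : ℝ) (q : E2) : E3 := P3 (q 0) (q 1) (ε - q 1 / a ^ 2)
def s3 (q : E2) : E3 := P3 (q 0) 0 (q 1)
def s4 (a ε : ℝ) (q : E2) : E3 := P3 (q 0) (ε * mm a (q 0)) (q 1)
def s5 (c : ℝ) (q : E2) : E3 := P3 c (q 0) (q 1)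

lemma P3_cont' {X : Type*} [TopologicalSpace X] {f g h : X → ℝ} (hf : Continuous f)
    (hg : Continuous g) (hh : Continuous h) : Continuous (fun x => P3 (f x) (g x) (h x)) :=
  P3_cont.comp (hf.prodMk (hg.prodMk hh))

lemma s0_cont : Continuous s0 :=
  P3_cont' (coord_cont2 0) (coord_cont2 1) continuous_const
lemma s1_cont (a ε : ℝ) : Continuous (s1 a ε) := by
  have h1 := coord_cont2 1
  exact P3_cont' (coord_cont2 0) (coord_cont2 1) (by fun_prop)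
lemma s3_cont : Continuous s3 :=
  P3_cont' (coord_cont2 0) continuous_const (coord_cont2 1)
lemma s4_cont (a ε : ℝ) : Continuous (s4 a ε) :=
  P3_cont' (coord_cont2 0) (continuous_const.mul ((mm_cont a).comp (coord_cont2 0))) (coord_cont2 1)
lemma s5_cont (c : ℝ) : Continuous (s5 c) :=
  P3_cont' continuous_const (coord_cont2 0) (coord_cont2 1)

def K1 (a : ℝ) : NNReal := NNReal.sqrt ⟨1 + (1 / a ^ 2) ^ 2, by positivity⟩
def K4 (a ε : ℝ) : NNReal := NNReal.sqrt ⟨1 + (2 * a ^ 2 * ε) ^ 2, by positivity⟩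

lemma K1_sq (a : ℝ) : ((K1 a : NNReal) : ℝ) ^ 2 = 1 + (1 / a ^ 2) ^ 2 := by
  have h : (K1 a) ^ 2 = ⟨1 + (1 / a ^ 2) ^ 2, by positivity⟩ := NNReal.sq_sqrt _
  rw [← NNReal.coe_pow, h]
  rfl
lemma K4_sq (a ε : ℝ) : ((K4 a ε : NNReal) : ℝ) ^ 2 = 1 + (2 * a ^ 2 * ε) ^ 2 := by
  have h : (K4 a ε) ^ 2 = ⟨1 + (2 * a ^ 2 * ε) ^ 2, by positivity⟩ := NNReal.sq_sqrt _
  rw [← NNReal.coe_pow, h]
  rfl

lemma s0_lip (S : Set E2) : LipschitzOnWith 1 s0 S := by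
  apply lip_of_sq
  intro q _ q' _
  rw [s0, s0, P3_dist, dist2]
  simp
lemma s1_lip (a ε : ℝ) (S : Set E2) : LipschitzOnWith (K1 a) (s1 a ε) S := by
  apply lip_of_sq
  intro q _ q' _
  rw [s1, s1, P3_dist, dist2, K1_sq]
  have e : (ε - q 1 / a ^ 2 - (ε - q' 1 / a ^ 2)) ^ 2 = (1 / a ^ 2) ^ 2 * (q 1 - q' 1) ^ 2 := by ring
  rw [e]
  nlinarith [mul_nonneg (sq_nonneg (1 / a ^ 2)) (sq_nonneg (q 0 - q' 0))]
lemma s3_lip (S : Set E2) : LipschitzOnWith 1 s3 S := by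
  apply lip_of_sq
  intro q _ q' _
  rw [s3, s3, P3_dist, dist2]
  simp
lemma mm_lip (a x x' : ℝ) : (mm a x - mm a x') ^ 2 ≤ (2 * a ^ 2) ^ 2 * (x - x') ^ 2 := by
  unfold mm
  have h : (|x| - |x'|) ^ 2 ≤ (x - x') ^ 2 := by
    rw [← sq_abs (|x| - |x'|), ← sq_abs (x - x')]
    exact pow_le_pow_left₀ (abs_nonneg _) (abs_abs_sub_abs_le_abs_sub x x') 2
  have e : (a + 2 * a ^ 2 * (1 - |x|) - (a + 2 * a ^ 2 * (1 - |x'|))) ^ 2
      = (2 * a ^ 2) ^ 2 * (|x| - |x'|) ^ 2 := by ring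
  rw [e]
  gcongr
lemma s4_lip (a ε : ℝ) (S : Set E2) : LipschitzOnWith (K4 a ε) (s4 a ε) S := by
  apply lip_of_sq
  intro q _ q' _
  rw [s4, s4, P3_dist, dist2, K4_sq]
  have e : (ε * mm a (q 0) - ε * mm a (q' 0)) ^ 2 = ε ^ 2 * (mm a (q 0) - mm a (q' 0)) ^ 2 := by ring
  rw [e]
  have h := mul_le_mul_of_nonneg_left (mm_lip a (q 0) (q' 0)) (sq_nonneg ε)
  nlinarith [mul_nonneg (sq_nonneg (2 * a ^ 2 * ε)) (sq_nonneg (q 1 - q' 1))]
lemma s5_lip (c : ℝ) (S : Set E2) : LipschitzOnWith 1 (s5 c) S := by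
  apply lip_of_sq
  intro q _ q' _
  rw [s5, s5, P3_dist, dist2]
  simp

/-- parameter domains of the closed faces -/
def R1 (a ε : ℝ) : Set E2 := {q | q 0 ∈ Icc (-1:ℝ) 1 ∧ q 1 ∈ Icc 0 (ε * mm a (q 0))}
def R3 (ε : ℝ) : Set E2 := {q | q 0 ∈ Icc (-1:ℝ) 1 ∧ q 1 ∈ Icc 0 ε}
def R5 (a ε : ℝ) : Set E2 := {q | q 0 ∈ Icc (0:ℝ) (ε * a) ∧ q 1 ∈ Icc 0 ε}

lemma closure_Om {a ε : ℝ} : closure (Om a ε) ⊆
    {p | |p 0| ≤ 1 ∧ 0 ≤ p 1 ∧ p 1 ≤ ε * mm a (p 0) ∧ 0 ≤ p 2 ∧ p 2 ≤ ε - p 1 / a ^ 2} := by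
  apply closure_minimal
  · rintro p ⟨h0, h1, h2, h3, h4⟩
    exact ⟨h0.le, h1.le, h2.le, h3.le, h4.le⟩
  · have h0 := coord_cont 0
    have h1 := coord_cont 1
    have h2 := coord_cont 2
    have hm := mm_cont a
    simp only [ofPred_and]
    refine (isClosed_le (by fun_prop) (by fun_prop)).inter
      ((isClosed_le (by fun_prop) (by fun_prop)).inter
      ((isClosed_le (by fun_prop) (by fun_prop)).inter
      ((isClosed_le (by fun_prop) (by fun_prop)).inter (isClosed_le (by fun_prop) (by fun_prop)))))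

lemma frontier_sub {a ε : ℝ} (ha : 0 < a) : frontier (Om a ε) ⊆
    (s0 '' R1 a ε) ∪ ((s1 a ε '' R1 a ε) ∪ ((s3 '' R3 ε) ∪ ((s4 a ε '' R3 ε) ∪
      ((s5 1 '' R5 a ε) ∪ (s5 (-1) '' R5 a ε))))) := by
  intro p hp
  rw [(Om_isOpen a ε).frontier_eq] at hp
  obtain ⟨hc, hn⟩ := hp
  obtain ⟨h0, h1, h2, h3, h4⟩ := closure_Om hc
  have ha2 : 0 < a ^ 2 := by positivity
  have h5 : p 2 ≤ ε := by
    have := div_nonneg h1 ha2.le
    linarith
  have h0' := abs_le.mp h0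
  by_cases g0 : |p 0| < 1
  · by_cases g1 : 0 < p 1
    · by_cases g2 : p 1 < ε * mm a (p 0)
      · by_cases g3 : 0 < p 2
        · have g4 : ¬ p 2 < ε - p 1 / a ^ 2 := fun g4 => hn ⟨g0, g1, g2, g3, g4⟩
          right; left
          refine ⟨P2 (p 0) (p 1), ⟨h0', h1, h2⟩, ?_⟩
          have : p 2 = ε - p 1 / a ^ 2 := le_antisymm h4 (not_lt.mp g4)
          rw [s1]
          simp only [P2_0, P2_1]
          rw [← this, P3_eta]
        · left
          refine ⟨P2 (p 0) (p 1), ⟨h0', h1, h2⟩, ?_⟩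
          have : p 2 = 0 := le_antisymm (not_lt.mp g3) h3
          rw [s0]
          simp only [P2_0, P2_1]
          rw [← this, P3_eta]
      · right; right; right; left
        refine ⟨P2 (p 0) (p 2), ⟨h0', h3, h5⟩, ?_⟩
        have : p 1 = ε * mm a (p 0) := le_antisymm h2 (not_lt.mp g2)
        rw [s4]
        simp only [P2_0, P2_1]
        rw [← this, P3_eta]
    · right; right; left
      refine ⟨P2 (p 0) (p 2), ⟨h0', h3, h5⟩, ?_⟩
      have : p 1 = 0 := le_antisymm (not_lt.mp g1) h1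
      rw [s3]
      simp only [P2_0, P2_1]
      rw [← this, P3_eta]
  · have h6 : |p 0| = 1 := le_antisymm h0 (not_lt.mp g0)
    have h7 : p 1 ≤ ε * a := by
      unfold mm at h2
      rw [h6] at h2
      simpa using h2
    rcases eq_or_eq_neg_of_abs_eq h6 with h8 | h8
    · right; right; right; right; left
      refine ⟨P2 (p 1) (p 2), ⟨⟨h1, h7⟩, h3, h5⟩, ?_⟩
      rw [s5]
      simp only [P2_0, P2_1]
      rw [← h8, P3_eta]
    · right; right; right; right; right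
      refine ⟨P2 (p 1) (p 2), ⟨⟨h1, h7⟩, h3, h5⟩, ?_⟩
      rw [s5]
      simp only [P2_0, P2_1]
      rw [← h8, P3_eta]

/-- the dominating measure -/
def Mup (a ε : ℝ) : Measure E3 :=
  (1 ^ 2 : NNReal) • Measure.map s0 ((μH[(2:ℝ)] : Measure E2).restrict (R1 a ε)) +
  ((K1 a ^ 2 : NNReal) • Measure.map (s1 a ε) ((μH[(2:ℝ)] : Measure E2).restrict (R1 a ε)) +
  ((1 ^ 2 : NNReal) • Measure.map s3 ((μH[(2:ℝ)] : Measure E2).restrict (R3 ε)) +
  ((K4 a ε ^ 2 : NNReal) • Measure.map (s4 a ε) ((μH[(2:ℝ)] : Measure E2).restrict (R3 ε)) +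
  ((1 ^ 2 : NNReal) • Measure.map (s5 1) ((μH[(2:ℝ)] : Measure E2).restrict (R5 a ε)) +
  (1 ^ 2 : NNReal) • Measure.map (s5 (-1)) ((μH[(2:ℝ)] : Measure E2).restrict (R5 a ε))))))

lemma frontier_le {a ε : ℝ} (ha : 0 < a) :
    (μH[(2:ℝ)] : Measure E3).restrict (frontier (Om a ε)) ≤ Mup a ε := by
  refine (Measure.restrict_mono (frontier_sub ha) le_rfl).trans ?_
  refine (Measure.restrict_union_le _ _).trans (add_le_add
    (haus_image_le s0_cont.measurable _ (s0_lip _)) ?_)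
  refine (Measure.restrict_union_le _ _).trans (add_le_add
    (haus_image_le (s1_cont a ε).measurable _ (s1_lip a ε _)) ?_)
  refine (Measure.restrict_union_le _ _).trans (add_le_add
    (haus_image_le s3_cont.measurable _ (s3_lip _)) ?_)
  refine (Measure.restrict_union_le _ _).trans (add_le_add
    (haus_image_le (s4_cont a ε).measurable _ (s4_lip a ε _)) ?_)
  refine (Measure.restrict_union_le _ _).trans (add_le_add
    (haus_image_le (s5_cont 1).measurable _ (s5_lip 1 _))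
    (haus_image_le (s5_cont (-1)).measurable _ (s5_lip (-1) _)))

end Pool.Agent.Helper88.Robin
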