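import Mathlib
import Pool.Agent.Helper88.Surf

open MeasureTheory Set Metric Filter Topology

noncomputable section

namespace Pool.Agent.Helper88.Robin

/-- surface measure of the polytope -/
def nu (a ε : ℝ) : Measure E3 := (μH[(2:ℝ)] : Measure E3).restrict (frontier (Om a ε))

/-- region below a graph -/
def Rg (I : Set ℝ) (h : ℝ → ℝ) : Set E2 := {q | q 0 ∈ I ∧ q 1 ∈ Icc 0 (h (q 0))}

lemma Rg_bdd {l r : ℝ} {h : ℝ → ℝ} (hh : Continuous h) :
    Bornology.IsBounded (Rg (Icc l r) h) := by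
  obtain ⟨M, hM⟩ := isCompact_Icc.exists_bound_of_continuousOn (s := Icc l r) hh.continuousOn
  have hb : Bornology.IsBounded ((fun q : ℝ × ℝ => P2 q.1 q.2) '' (Icc l r ×ˢ Icc 0 M)) :=
    ((isCompact_Icc.prod isCompact_Icc).image P2_cont).isBounded
  apply hb.subset
  rintro q ⟨h0, h1, h2⟩
  refine ⟨(q 0, q 1), ⟨h0, h1, h2.trans ?_⟩, P2_eta q⟩
  have := hM _ h0
  rw [Real.norm_eq_abs] at this
  exact (le_abs_self _).trans this

lemma Rg_meas {l r : ℝ} {h : ℝ → ℝ} (hh : Continuous h) : MeasurableSet (Rg (Icc l r) h) := by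
  have h0 := coord_cont2 0
  have h1 := coord_cont2 1
  have : Rg (Icc l r) h = {q | l ≤ q 0} ∩ ({q | q 0 ≤ r} ∩ ({q | 0 ≤ q 1} ∩ {q | q 1 ≤ h (q 0)})) := by
    ext q
    simp [Rg, mem_Icc, and_assoc]
  rw [this]
  refine ((isClosed_le (by fun_prop) (by fun_prop)).inter
    ((isClosed_le (by fun_prop) (by fun_prop)).inter
    ((isClosed_le (by fun_prop) (by fun_prop)).inter
      (isClosed_le (by fun_prop) (by fun_prop))))).measurableSet

lemma Rg_fin {l r : ℝ} {h : ℝ → ℝ} (hh : Continuous h) :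
    IsFiniteMeasure ((μH[(2:ℝ)] : Measure E2).restrict (Rg (Icc l r) h)) :=
  ⟨by rw [Measure.restrict_apply_univ]; exact (Rg_bdd hh).measure_lt_top⟩

lemma Rg_int {l r : ℝ} {h : ℝ → ℝ} (hh : Continuous h) (hpos : ∀ x ∈ Icc l r, 0 ≤ h x)
    {f : ℝ → ℝ} (hf : Continuous f) :
    ∫ q in Rg (Icc l r) h, f (q 0) = ∫ x in Icc l r, f x * h x := by
  have hmp : MeasurePreserving e2.symm := e2_mp.symm
  have hfi : IntegrableOn (fun q : E2 => f (q 0)) (Rg (Icc l r) h) := by
    have hc : Continuous (fun q : E2 => f (q 0)) := hf.comp (coord_cont2 0)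
    have hK : IsCompact (closure (Rg (Icc l r) h)) := (Rg_bdd hh).isCompact_closure
    exact (hc.continuousOn.integrableOn_compact hK).mono_set subset_closure
  set S : Set (ℝ × ℝ) := e2.symm ⁻¹' (Rg (Icc l r) h) with hS
  have hSm : MeasurableSet S := e2.symm.measurable (Rg_meas hh)
  have h1 : ∫ p in S, f ((e2.symm p) 0) = ∫ p in Rg (Icc l r) h, f (p 0) :=
    hmp.setIntegral_preimage_emb e2.symm.measurableEmbedding (fun q => f (q 0)) (Rg (Icc l r) h)
  have h2 : IntegrableOn ((fun q : E2 => f (q 0)) ∘ e2.symm) S := by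
    rw [hS, hmp.integrableOn_comp_preimage e2.symm.measurableEmbedding]
    exact hfi
  have hmem : ∀ x y, (x, y) ∈ S ↔ x ∈ Icc l r ∧ y ∈ Icc 0 (h x) := by
    intro x y
    rw [hS, mem_preimage, e2_symm]
    rfl
  have h3 := slice_integral (ν := (volume : Measure ℝ)) hSm (I := Icc l r)
    measurableSet_Icc (by
      rintro ⟨x, y⟩ hp
      exact ((hmem x y).mp hp).1) (F := (fun q : E2 => f (q 0)) ∘ e2.symm) h2
  rw [← h1]
  refine h3.1.trans ?_
  apply setIntegral_congr_fun measurableSet_Icc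
  intro x hx
  have hsl : {y : ℝ | (x, y) ∈ S} = Icc 0 (h x) := by
    ext y
    rw [mem_ofPred_eq, hmem]
    exact ⟨fun h => h.2, fun h => ⟨hx, h⟩⟩
  simp only [hsl, Function.comp_apply, e2_symm, P2_0]
  rw [setIntegral_const]
  simp [hpos x hx, mul_comm]

lemma Mup_fin (a ε : ℝ) : IsFiniteMeasure (Mup a ε) := by
  have hm := mm_cont a
  have i1 : IsFiniteMeasure ((μH[(2:ℝ)] : Measure E2).restrict (R1 a ε)) :=
    Rg_fin (h := fun x => ε * mm a x) (by fun_prop)
  have i2 : IsFiniteMeasure ((μH[(2:ℝ)] : Measure E2).restrict (R3 ε)) :=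
    Rg_fin (h := fun _ => ε) (by fun_prop)
  have i3 : IsFiniteMeasure ((μH[(2:ℝ)] : Measure E2).restrict (R5 a ε)) :=
    Rg_fin (h := fun _ => ε) (by fun_prop)
  unfold Mup
  infer_instance

lemma nu_fin {a ε : ℝ} (ha : 0 < a) : IsFiniteMeasure (nu a ε) :=
  have := Mup_fin a ε
  isFiniteMeasure_of_le _ (frontier_le ha)

/-- continuous functions are integrable -/
def Good (μ : Measure E3) : Prop := ∀ F : E3 → ℝ, Continuous F → Integrable F μ

lemma closure_compact {a ε : ℝ} (ha : 0 < a) : IsCompact (closure (Om a ε)) :=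
  (Om_bounded ha).isCompact_closure

lemma nu_good {a ε : ℝ} (ha : 0 < a) : Good (nu a ε) := by
  intro F hF
  have := nu_fin (ε := ε) ha
  obtain ⟨M, hM⟩ := (closure_compact (ε := ε) ha).exists_bound_of_continuousOn hF.continuousOn
  have hfin : μH[(2:ℝ)] (frontier (Om a ε)) ≠ ⊤ := by
    have := measure_ne_top (nu a ε) univ
    rwa [nu, Measure.restrict_apply_univ] at this
  refine Measure.integrableOn_of_bounded (M := M) hfin hF.aestronglyMeasurable ?_
  rw [ae_restrict_iff' isClosed_frontier.measurableSet]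
  filter_upwards with x hx
  exact hM x (frontier_subset_closure hx)

/-- the volume measure of the polytope -/
def mu (a ε : ℝ) : Measure E3 := volume.restrict (Om a ε)

lemma mu_good {a ε : ℝ} (ha : 0 < a) : Good (mu a ε) := by
  intro F hF
  exact (hF.continuousOn.integrableOn_compact (closure_compact ha)).mono_set subset_closure

lemma mu_fin {a ε : ℝ} (ha : 0 < a) : IsFiniteMeasure (mu a ε) :=
  ⟨by rw [mu, Measure.restrict_apply_univ]; exact (Om_bounded ha).measure_lt_top⟩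

/-- faces used for the lower bound -/
lemma face0_sub {a ε : ℝ} (ha : 0 < a) : s0 '' DD a ε ⊆ frontier (Om a ε) := by
  rintro _ ⟨q, ⟨hq0, hq1⟩, rfl⟩
  have ha2 : 0 < a ^ 2 := by positivity
  have hY : YY a ε (q 0) ≤ a ^ 2 * ε := min_le_right _ _
  have hpos : 0 < ε - q 1 / a ^ 2 := by
    have : q 1 / a ^ 2 < ε := by
      rw [div_lt_iff₀ ha2]
      linarith [hq1.2]
    linarith
  rw [(Om_isOpen a ε).frontier_eq]
  constructor
  · have ht : Tendsto (fun z : ℝ => P3 (q 0) (q 1) z) (𝓝[>] 0) (𝓝 (s0 q)) := by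
      have hc : Continuous (fun z : ℝ => P3 (q 0) (q 1) z) :=
        P3_cont' continuous_const continuous_const continuous_id
      exact (hc.tendsto 0).mono_left nhdsWithin_le_nhds
    refine mem_closure_of_tendsto ht ?_
    filter_upwards [Ioo_mem_nhdsGT hpos] with z hz
    rw [mem_Om ha]
    exact ⟨hq0, hq1.1, hq1.2, hz.1, hz.2⟩
  · intro h
    have := h.2.2.2.1
    simp [s0] at this

lemma face1_sub {a ε : ℝ} (ha : 0 < a) : s1 a ε '' DD a ε ⊆ frontier (Om a ε) := by
  rintro _ ⟨q, ⟨hq0, hq1⟩, rfl⟩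
  have ha2 : 0 < a ^ 2 := by positivity
  have hY : YY a ε (q 0) ≤ a ^ 2 * ε := min_le_right _ _
  have hpos : 0 < ε - q 1 / a ^ 2 := by
    have : q 1 / a ^ 2 < ε := by
      rw [div_lt_iff₀ ha2]
      linarith [hq1.2]
    linarith
  rw [(Om_isOpen a ε).frontier_eq]
  constructor
  · have ht : Tendsto (fun z : ℝ => P3 (q 0) (q 1) z) (𝓝[<] (ε - q 1 / a ^ 2)) (𝓝 (s1 a ε q)) := by
      have hc : Continuous (fun z : ℝ => P3 (q 0) (q 1) z) :=
        P3_cont' continuous_const continuous_const continuous_id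
      exact (hc.tendsto _).mono_left nhdsWithin_le_nhds
    refine mem_closure_of_tendsto ht ?_
    filter_upwards [Ioo_mem_nhdsLT hpos] with z hz
    rw [mem_Om ha]
    exact ⟨hq0, hq1.1, hq1.2, hz.1, hz.2⟩
  · intro h
    have := h.2.2.2.2
    simp [s1] at this

lemma proj_s0 (q : E2) : proj (s0 q) = q := by
  rw [proj, s0]; simp [P2_eta]
lemma proj_s1 (a ε : ℝ) (q : E2) : proj (s1 a ε q) = q := by
  rw [proj, s1]; simp [P2_eta]

lemma proj_cont : Continuous proj := proj_lip.continuous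

lemma face0_meas (a ε : ℝ) : MeasurableSet (s0 '' DD a ε) := by
  have : s0 '' DD a ε = proj ⁻¹' (DD a ε) ∩ {p | p 2 = 0} := by
    ext p
    constructor
    · rintro ⟨q, hq, rfl⟩
      refine ⟨?_, by simp [s0]⟩
      rw [mem_preimage, proj_s0]; exact hq
    · rintro ⟨h1, h2⟩
      refine ⟨proj p, h1, ?_⟩
      have h2' : p 2 = 0 := h2
      rw [s0, proj]
      simp only [P2_0, P2_1]
      rw [← h2', P3_eta]
  rw [this]
  exact (proj_cont.measurable (DD_isOpen a ε).measurableSet).inter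
    (isClosed_eq (coord_cont 2) continuous_const).measurableSet

lemma face_disj {a ε : ℝ} (ha : 0 < a) : Disjoint (s0 '' DD a ε) (s1 a ε '' DD a ε) := by
  rw [Set.disjoint_left]
  rintro _ ⟨q, hq, rfl⟩ ⟨q', hq', h⟩
  have ha2 : 0 < a ^ 2 := by positivity
  have e : ε - q' 1 / a ^ 2 = 0 := by
    have := congrArg (fun p : E3 => p 2) h
    simpa [s0, s1] using this
  have hY : YY a ε (q' 0) ≤ a ^ 2 * ε := min_le_right _ _
  have hpos : 0 < ε - q' 1 / a ^ 2 := by
    have : q' 1 / a ^ 2 < ε := by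
      rw [div_lt_iff₀ ha2]
      linarith [hq'.2.2]
    linarith
  exact absurd e hpos.ne'

lemma nu_ge {a ε : ℝ} (ha : 0 < a) :
    Measure.map s0 ((μH[(2:ℝ)] : Measure E2).restrict (DD a ε)) +
      Measure.map (s1 a ε) ((μH[(2:ℝ)] : Measure E2).restrict (DD a ε)) ≤ nu a ε := by
  have h0 := haus_section_ge s0_cont.measurable proj_lip proj_s0 (DD a ε)
  have h1 := haus_section_ge (s1_cont a ε).measurable proj_lip (proj_s1 a ε) (DD a ε)
  refine (add_le_add h0 h1).trans ?_
  have hu : (μH[(2:ℝ)] : Measure E3).restrict (s0 '' DD a ε ∪ s1 a ε '' DD a ε) =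
      (μH[(2:ℝ)] : Measure E3).restrict (s0 '' DD a ε) +
        (μH[(2:ℝ)] : Measure E3).restrict (s1 a ε '' DD a ε) :=
    Measure.restrict_union' (face_disj ha) (face0_meas a ε)
  rw [← hu]
  exact Measure.restrict_mono (union_subset (face0_sub ha) (face1_sub ha)) le_rfl

end Pool.Agent.Helper88.Robin
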