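import Mathlib
import Pool.Agent.Helper88.Bdry

open MeasureTheory Set Metric Filter Topology

noncomputable section

namespace Pool.Agent.Helper88.Robin

lemma DD_bdd {a ε : ℝ} : Bornology.IsBounded (DD a ε) := by
  have h : DD a ε ⊆ Rg (Icc (-1) 1) (YY a ε) := by
    rintro q ⟨h0, h1⟩
    exact ⟨⟨h0.1.le, h0.2.le⟩, ⟨h1.1.le, h1.2.le⟩⟩
  exact (Rg_bdd (YY_cont a ε)).subset h

lemma DD_intble {a ε : ℝ} {G : E2 → ℝ} (hG : Continuous G) : IntegrableOn G (DD a ε) :=
  (hG.continuousOn.integrableOn_compact (DD_bdd (a := a) (ε := ε)).isCompact_closure).mono_set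
    subset_closure

lemma Rg_intble {l r : ℝ} {h : ℝ → ℝ} (hh : Continuous h) {G : E2 → ℝ} (hG : Continuous G) :
    IntegrableOn G (Rg (Icc l r) h) :=
  (hG.continuousOn.integrableOn_compact (Rg_bdd hh).isCompact_closure).mono_set
    subset_closure

/-- lower bound for the boundary term -/
lemma bdry_lower {a ε : ℝ} (ha : 0 < a) {v : E3 → ℝ} (hv : Continuous v) :
    (kap : ℝ) * ((∫ x in Ioo (-1:ℝ) 1, ∫ y in Ioo 0 (YY a ε x), v (P3 x y 0) ^ 2) +
      ∫ x in Ioo (-1:ℝ) 1, ∫ y in Ioo 0 (YY a ε x), v (P3 x y (ε - y / a ^ 2)) ^ 2)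
      ≤ ∫ p, v p ^ 2 ∂(nu a ε) := by
  have hc : Continuous (fun p => v p ^ 2) := by fun_prop
  have hgood := nu_good (ε := ε) ha _ hc
  have h0c : Continuous (fun q : E2 => v (s0 q) ^ 2) := hc.comp s0_cont
  have h1c : Continuous (fun q : E2 => v (s1 a ε q) ^ 2) := hc.comp (s1_cont a ε)
  have hle := nu_ge (ε := ε) ha
  have hi := hgood.mono_measure hle
  have hmono := integral_mono_measure hle (Eventually.of_forall fun p => sq_nonneg (v p)) hgood
  refine le_trans (le_of_eq ?_) hmono
  rw [integrable_add_measure] at hi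
  rw [integral_add_measure hi.1 hi.2, integral_map s0_cont.measurable.aemeasurable
    hc.aestronglyMeasurable, integral_map (s1_cont a ε).measurable.aemeasurable
    hc.aestronglyMeasurable, haus_eq, Measure.restrict_smul, integral_smul_nnreal_measure,
    integral_smul_nnreal_measure]
  have e0 := (DD_int (DD_intble (a := a) (ε := ε) h0c)).1
  have e1 := (DD_int (DD_intble (a := a) (ε := ε) h1c)).1
  rw [e0, e1]
  simp only [s0, s1, P2_0, P2_1, NNReal.smul_def, smul_eq_mul]
  ring

/-- upper bound for the boundary term of functions of the first coordinate -/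
lemma bdry_upper {a ε : ℝ} (ha : 0 < a) (hε : 0 < ε) {f : ℝ → ℝ} (hf : Continuous f) :
    ∫ p, f (p 0) ^ 2 ∂(nu a ε) ≤
      (kap : ℝ) * ((2 + (1 / a ^ 2) ^ 2) * (∫ x in Icc (-1:ℝ) 1, f x ^ 2 * (ε * mm a x)) +
        (2 + (2 * a ^ 2 * ε) ^ 2) * (∫ x in Icc (-1:ℝ) 1, f x ^ 2 * ε) +
        ε ^ 2 * a * (f 1 ^ 2 + f (-1) ^ 2)) := by
  have hm := mm_cont a
  have hc : Continuous (fun p : E3 => f (p 0) ^ 2) := by
    have := coord_cont 0
    fun_prop
  have hfin := Mup_fin a ε
  have hle := frontier_le (ε := ε) ha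
  have i1 : IsFiniteMeasure ((μH[(2:ℝ)] : Measure E2).restrict (R1 a ε)) :=
    Rg_fin (h := fun x => ε * mm a x) (by fun_prop)
  have i2 : IsFiniteMeasure ((μH[(2:ℝ)] : Measure E2).restrict (R3 ε)) :=
    Rg_fin (h := fun _ => ε) (by fun_prop)
  have i3 : IsFiniteMeasure ((μH[(2:ℝ)] : Measure E2).restrict (R5 a ε)) :=
    Rg_fin (h := fun _ => ε) (by fun_prop)
  -- integrability on pieces
  have hfc : Continuous (fun x : ℝ => f x ^ 2) := by fun_prop
  have hq0 : Continuous (fun q : E2 => f (q 0) ^ 2) := hfc.comp (coord_cont2 0)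
  have r1 : Integrable (fun q : E2 => f (q 0) ^ 2)
      ((μH[(2:ℝ)] : Measure E2).restrict (R1 a ε)) := by
    rw [haus_eq, Measure.restrict_smul]
    exact (Rg_intble (h := fun x => ε * mm a x) (by fun_prop) hq0).smul_measure_nnreal
  have r3 : Integrable (fun q : E2 => f (q 0) ^ 2)
      ((μH[(2:ℝ)] : Measure E2).restrict (R3 ε)) := by
    rw [haus_eq, Measure.restrict_smul]
    exact (Rg_intble (h := fun _ => ε) (by fun_prop) hq0).smul_measure_nnreal
  have m0 : Integrable (fun p : E3 => f (p 0) ^ 2)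
      (Measure.map s0 ((μH[(2:ℝ)] : Measure E2).restrict (R1 a ε))) := by
    rw [integrable_map_measure hc.aestronglyMeasurable s0_cont.measurable.aemeasurable]
    exact r1
  have m1 : Integrable (fun p : E3 => f (p 0) ^ 2)
      (Measure.map (s1 a ε) ((μH[(2:ℝ)] : Measure E2).restrict (R1 a ε))) := by
    rw [integrable_map_measure hc.aestronglyMeasurable (s1_cont a ε).measurable.aemeasurable]
    exact r1
  have m3 : Integrable (fun p : E3 => f (p 0) ^ 2)
      (Measure.map s3 ((μH[(2:ℝ)] : Measure E2).restrict (R3 ε))) := by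
    rw [integrable_map_measure hc.aestronglyMeasurable s3_cont.measurable.aemeasurable]
    exact r3
  have m4 : Integrable (fun p : E3 => f (p 0) ^ 2)
      (Measure.map (s4 a ε) ((μH[(2:ℝ)] : Measure E2).restrict (R3 ε))) := by
    rw [integrable_map_measure hc.aestronglyMeasurable (s4_cont a ε).measurable.aemeasurable]
    exact r3
  have m5 : ∀ c : ℝ, Integrable (fun p : E3 => f (p 0) ^ 2)
      (Measure.map (s5 c) ((μH[(2:ℝ)] : Measure E2).restrict (R5 a ε))) := by
    intro c
    rw [integrable_map_measure hc.aestronglyMeasurable (s5_cont c).measurable.aemeasurable]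
    have : Integrable (fun _ : E2 => f c ^ 2) ((μH[(2:ℝ)] : Measure E2).restrict (R5 a ε)) :=
      integrable_const _
    exact this
  have n0 : Integrable (fun p : E3 => f (p 0) ^ 2)
      ((1 ^ 2 : NNReal) • Measure.map s0 ((μH[(2:ℝ)] : Measure E2).restrict (R1 a ε))) :=
    m0.smul_measure_nnreal
  have n1 : Integrable (fun p : E3 => f (p 0) ^ 2)
      ((K1 a ^ 2 : NNReal) • Measure.map (s1 a ε) ((μH[(2:ℝ)] : Measure E2).restrict (R1 a ε))) :=
    m1.smul_measure_nnreal
  have n3 : Integrable (fun p : E3 => f (p 0) ^ 2)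
      ((1 ^ 2 : NNReal) • Measure.map s3 ((μH[(2:ℝ)] : Measure E2).restrict (R3 ε))) :=
    m3.smul_measure_nnreal
  have n4 : Integrable (fun p : E3 => f (p 0) ^ 2)
      ((K4 a ε ^ 2 : NNReal) • Measure.map (s4 a ε)
        ((μH[(2:ℝ)] : Measure E2).restrict (R3 ε))) :=
    m4.smul_measure_nnreal
  have n5 : Integrable (fun p : E3 => f (p 0) ^ 2)
      ((1 ^ 2 : NNReal) • Measure.map (s5 1) ((μH[(2:ℝ)] : Measure E2).restrict (R5 a ε))) :=
    (m5 1).smul_measure_nnreal
  have n6 : Integrable (fun p : E3 => f (p 0) ^ 2)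
      ((1 ^ 2 : NNReal) • Measure.map (s5 (-1)) ((μH[(2:ℝ)] : Measure E2).restrict (R5 a ε))) :=
    (m5 (-1)).smul_measure_nnreal
  have j5 := n5.add_measure n6
  have j4 := n4.add_measure j5
  have j3 := n3.add_measure j4
  have j1 := n1.add_measure j3
  have hMup : Integrable (fun p : E3 => f (p 0) ^ 2) (Mup a ε) := n0.add_measure j1
  have hmono : ∫ p, f (p 0) ^ 2 ∂(nu a ε) ≤ ∫ p, f (p 0) ^ 2 ∂(Mup a ε) :=
    integral_mono_measure hle (Eventually.of_forall fun p => sq_nonneg _) hMup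
  refine hmono.trans (le_of_eq ?_)
  unfold Mup
  rw [integral_add_measure n0 j1, integral_add_measure n1 j3, integral_add_measure n3 j4,
    integral_add_measure n4 j5, integral_add_measure n5 n6]
  simp only [integral_smul_nnreal_measure]
  rw [integral_map s0_cont.measurable.aemeasurable hc.aestronglyMeasurable,
    integral_map (s1_cont a ε).measurable.aemeasurable hc.aestronglyMeasurable,
    integral_map s3_cont.measurable.aemeasurable hc.aestronglyMeasurable,
    integral_map (s4_cont a ε).measurable.aemeasurable hc.aestronglyMeasurable,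
    integral_map (s5_cont 1).measurable.aemeasurable hc.aestronglyMeasurable,
    integral_map (s5_cont (-1)).measurable.aemeasurable hc.aestronglyMeasurable]
  simp only [s0, s1, s3, s4, s5, P3_0]
  rw [haus_eq]
  simp only [Measure.restrict_smul, integral_smul_nnreal_measure]
  have e1 : ∫ q in R1 a ε, f (q 0) ^ 2 = ∫ x in Icc (-1:ℝ) 1, f x ^ 2 * (ε * mm a x) :=
    Rg_int (h := fun x => ε * mm a x) (by fun_prop) (by
      intro x hx
      have hx' : |x| ≤ 1 := abs_le.mpr hx
      unfold mm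
      have : 0 ≤ 2 * a ^ 2 * (1 - |x|) := by
        apply mul_nonneg (by positivity)
        linarith
      positivity) hfc
  have e3 : ∫ q in R3 ε, f (q 0) ^ 2 = ∫ x in Icc (-1:ℝ) 1, f x ^ 2 * ε :=
    Rg_int (h := fun _ => ε) (by fun_prop) (fun _ _ => hε.le) hfc
  have e5 : ∀ c : ℝ, ∫ _q in R5 a ε, f c ^ 2 = f c ^ 2 * ε * (ε * a) := by
    intro c
    have := Rg_int (l := 0) (r := ε * a) (h := fun _ => ε) (by fun_prop) (fun _ _ => hε.le)
      (f := fun _ => f c ^ 2) (by fun_prop)
    have h2 : ∫ _q in R5 a ε, f c ^ 2 = ∫ _x in Icc 0 (ε * a), f c ^ 2 * ε := this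
    rw [h2, setIntegral_const]
    have : 0 ≤ ε * a := by positivity
    simp [this]
    ring
  rw [e1, e3, e5 1, e5 (-1)]
  simp only [NNReal.smul_def, smul_eq_mul, NNReal.coe_pow, K1_sq, K4_sq, NNReal.coe_one]
  ring

end Pool.Agent.Helper88.Robin
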