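import Mathlib
import Pool.Agent.Helper88.Bint

open MeasureTheory Set Metric Filter Topology

noncomputable section

namespace Pool.Agent.Helper88.Robin

/-- coordinate directions -/
def bb (i : Fin 3) : E3 := EuclideanSpace.single i 1

lemma normsq (L : E3 →L[ℝ] ℝ) : ‖L‖ ^ 2 = L (bb 0) ^ 2 + L (bb 1) ^ 2 + L (bb 2) ^ 2 := by
  set g := (InnerProductSpace.toDual ℝ E3).symm L with hg
  have h1 : ‖g‖ = ‖L‖ := LinearIsometryEquiv.norm_map _ _
  have h2 : ∀ i, L (bb i) = g i := by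
    intro i
    have := InnerProductSpace.toDual_symm_apply (𝕜 := ℝ) (E := E3) (x := bb i) (y := L)
    rw [← this, ← hg, bb, EuclideanSpace.inner_single_right]
    simp
  rw [← h1, EuclideanSpace.norm_sq_eq, Fin.sum_univ_three, h2, h2, h2]
  simp [sq_abs]

lemma P3_line1 (x y z : ℝ) : HasDerivAt (fun s => P3 x s z) (bb 1) y := by
  have h : (fun s => P3 x s z) = fun s => P3 x 0 z + s • bb 1 := by
    funext s
    ext i
    fin_cases i <;> simp [P3, bb]
  rw [h]
  have := ((hasDerivAt_id y).smul_const (bb 1)).const_add (P3 x 0 z)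
  simpa using this

lemma P3_line2 (x y z : ℝ) : HasDerivAt (fun s => P3 x y s) (bb 2) z := by
  have h : (fun s => P3 x y s) = fun s => P3 x y 0 + s • bb 2 := by
    funext s
    ext i
    fin_cases i <;> simp [P3, bb]
  rw [h]
  have := ((hasDerivAt_id z).smul_const (bb 2)).const_add (P3 x y 0)
  simpa using this

lemma slice_diff2 {v : E3 → ℝ} (hv : ContDiff ℝ 1 v) (x : ℝ) :
    Diff2 (fun q => v (P3 x q.1 q.2)) (fun q => fderiv ℝ v (P3 x q.1 q.2) (bb 1))
      (fun q => fderiv ℝ v (P3 x q.1 q.2) (bb 2)) := by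
  have hP : Continuous (fun q : ℝ × ℝ => P3 x q.1 q.2) :=
    P3_cont' continuous_const continuous_fst continuous_snd
  have hd : Continuous (fderiv ℝ v) := hv.continuous_fderiv (by norm_num)
  have hdiff : Differentiable ℝ v := hv.differentiable (by norm_num)
  refine ⟨hv.continuous.comp hP, (hd.comp hP).clm_apply continuous_const,
    (hd.comp hP).clm_apply continuous_const, ?_, ?_⟩
  · intro y z
    exact (hdiff (P3 x y z)).hasFDerivAt.comp_hasDerivAt y (P3_line1 x y z)
  · intro y z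
    exact (hdiff (P3 x y z)).hasFDerivAt.comp_hasDerivAt z (P3_line2 x y z)

/-- the central region -/
def Cc : Set E3 := {p | |p 0| < 1 / 2}

lemma Cc_meas : MeasurableSet Cc := by
  have := coord_cont 0
  exact (isOpen_lt (by fun_prop) (by fun_prop)).measurableSet

lemma YY_center {a ε x : ℝ} (ha : 0 < a) (hε : 0 < ε) (hx : |x| < 1 / 2) :
    YY a ε x = a ^ 2 * ε := by
  unfold YY mm
  apply min_eq_right
  have h1 : a ^ 2 ≤ a + 2 * a ^ 2 * (1 - |x|) := by nlinarith [sq_nonneg a]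
  calc a ^ 2 * ε = ε * a ^ 2 := by ring
    _ ≤ _ := mul_le_mul_of_nonneg_left h1 hε.le

/-- lower bound for the quadratic form -/
lemma Q_lower {a ε : ℝ} (ha : 0 < a) (hε : 0 < ε) {v : E3 → ℝ} (hv : ContDiff ℝ 1 v) :
    (2 * kap / ε - kap ^ 2) * (∫ p, v p ^ 2 ∂(mu a ε)) +
      ((4 * kap / ε - kap ^ 2 * (1 + 4 * (a ^ 2) ^ 2)) - (2 * kap / ε - kap ^ 2)) *
        (∫ p, Cc.indicator (fun p => v p ^ 2) p ∂(mu a ε)) ≤
      (∫ p, ‖fderiv ℝ v p‖ ^ 2 ∂(mu a ε)) + ∫ p, v p ^ 2 ∂(nu a ε) := by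
  have ha2 : 0 < a ^ 2 := by positivity
  have hvc := hv.continuous
  have hd : Continuous (fderiv ℝ v) := hv.continuous_fderiv (by norm_num)
  have d1 : Continuous (fun p => fderiv ℝ v p (bb 1)) := hd.clm_apply continuous_const
  have d2 : Continuous (fun p => fderiv ℝ v p (bb 2)) := hd.clm_apply continuous_const
  set F : E3 → ℝ := fun p => (fderiv ℝ v p (bb 1)) ^ 2 + (fderiv ℝ v p (bb 2)) ^ 2 with hF
  have hFc : Continuous F := by fun_prop
  have hFle : ∫ p, F p ∂(mu a ε) ≤ ∫ p, ‖fderiv ℝ v p‖ ^ 2 ∂(mu a ε) := by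
    apply integral_mono (mu_good ha _ hFc) (mu_good ha _ (by fun_prop))
    intro p
    simp only [hF, normsq]
    nlinarith [sq_nonneg (fderiv ℝ v p (bb 0))]
  have hv2 : Continuous (fun p => v p ^ 2) := by fun_prop
  have iF := Om_int (ε := ε) ha (mu_good ha _ hFc)
  have iN := Om_int (ε := ε) ha (mu_good ha _ hv2)
  have iC := Om_int (ε := ε) ha ((mu_good ha _ hv2).indicator Cc_meas)
  have c0 : Continuous (fun q : E2 => v (P3 (q 0) (q 1) 0) ^ 2) := hv2.comp s0_cont
  have c1 : Continuous (fun q : E2 => v (P3 (q 0) (q 1) (ε - q 1 / a ^ 2)) ^ 2) :=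
    hv2.comp (s1_cont a ε)
  have i0 := (DD_int (DD_intble (a := a) (ε := ε) c0)).2
  have i1 := (DD_int (DD_intble (a := a) (ε := ε) c1)).2
  simp only [P2_0, P2_1] at i0 i1
  have i01 : IntegrableOn (fun x => (kap : ℝ) *
      ((∫ y in Ioo 0 (YY a ε x), v (P3 x y 0) ^ 2) +
        ∫ y in Ioo 0 (YY a ε x), v (P3 x y (ε - y / a ^ 2)) ^ 2)) (Ioo (-1:ℝ) 1) :=
    (i0.add i1).const_mul _
  have hB := bdry_lower (ε := ε) ha hvc
  have e1 : ∫ p, v p ^ 2 ∂(mu a ε) = _ := iN.1
  have e2 : ∫ p, Cc.indicator (fun p => v p ^ 2) p ∂(mu a ε) = _ := iC.1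
  have e3 : ∫ p, F p ∂(mu a ε) = _ := iF.1
  refine le_trans ?_ (add_le_add hFle hB)
  rw [e1, e2, e3, ← integral_const_mul, ← integral_const_mul,
    ← integral_add (iN.2.const_mul _) (iC.2.const_mul _), ← integral_add i0 i1,
    ← integral_const_mul, ← integral_add iF.2 i01]
  apply setIntegral_mono_on ((iN.2.const_mul _).add (iC.2.const_mul _))
    (iF.2.add i01) measurableSet_Ioo
  intro x hx
  have hx1 : |x| ≤ 1 := (abs_lt.mpr hx).le
  have hY0 := (YY_pos (ε := ε) ha hε hx1).le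
  have hYle : YY a ε x ≤ a ^ 2 * ε := min_le_right _ _
  have hP : Continuous (fun q : ℝ × ℝ => P3 x q.1 q.2) :=
    P3_cont' continuous_const continuous_fst continuous_snd
  have k0 : Continuous (fun y : ℝ => v (P3 x y 0) ^ 2) :=
    hv2.comp (P3_cont' continuous_const continuous_id continuous_const)
  have k1 : Continuous (fun y : ℝ => v (P3 x y (ε - y / a ^ 2)) ^ 2) :=
    hv2.comp (P3_cont' continuous_const continuous_id (by fun_prop))
  have eb : (∫ y in Ioo 0 (YY a ε x), v (P3 x y 0) ^ 2) +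
      (∫ y in Ioo 0 (YY a ε x), v (P3 x y (ε - y / a ^ 2)) ^ 2) =
      ∫ y in (0:ℝ)..(YY a ε x), (v (P3 x y 0) ^ 2 + v (P3 x y (ε - y / a ^ 2)) ^ 2) := by
    rw [intervalIntegral.integral_add (k0.intervalIntegrable _ _) (k1.intervalIntegrable _ _),
      intervalIntegral.integral_of_le hY0, intervalIntegral.integral_of_le hY0,
      integral_Ioc_eq_integral_Ioo, integral_Ioc_eq_integral_Ioo]
  simp only [Pi.add_apply]
  rw [eb]
  by_cases hxc : |x| < 1 / 2
  · have ind : ∀ q : ℝ × ℝ, Cc.indicator (fun p => v p ^ 2) (P3 x q.1 q.2)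
        = v (P3 x q.1 q.2) ^ 2 := by
      intro q
      rw [indicator_of_mem]
      simpa [Cc] using hxc
    simp only [ind]
    rw [YY_center ha hε hxc]
    have := cross_full (slice_diff2 hv x) (A := a ^ 2) (ε := ε) (b := kap) ha2 hε
    simp only at this
    refine le_trans (le_of_eq ?_) this
    ring
  · have ind : ∀ q : ℝ × ℝ, Cc.indicator (fun p => v p ^ 2) (P3 x q.1 q.2) = 0 := by
      intro q
      rw [indicator_of_notMem]
      simpa [Cc] using hxc
    simp only [ind, integral_zero, mul_zero, add_zero]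
    exact cross_all (slice_diff2 hv x) (A := a ^ 2) (ε := ε) (b := kap) ha2 hY0 hYle
      kap_pos.le

end Pool.Agent.Helper88.Robin
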