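import Mathlib
import Pool.Agent.Helper88.Lower

open MeasureTheory Set Metric Filter Topology

noncomputable section

namespace Pool.Agent.Helper88.Robin

/-- mass -/
def Nf (μ : Measure E3) (v : E3 → ℝ) : ℝ := ∫ p, v p ^ 2 ∂μ
/-- Dirichlet energy -/
def Df (μ : Measure E3) (v : E3 → ℝ) : ℝ := ∫ p, ‖fderiv ℝ v p‖ ^ 2 ∂μ
/-- Robin energy -/
def Qf (μ ν : Measure E3) (α : ℝ) (v : E3 → ℝ) : ℝ := Df μ v + α * Nf ν v

/-- the set of values in the min-max -/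
def lset (μ ν : Measure E3) (α : ℝ) (k : ℕ) : Set ℝ :=
  {r : ℝ | ∃ V : Submodule ℝ (E3 → ℝ), Module.finrank ℝ V = k ∧ (∀ v ∈ V, ContDiff ℝ 1 v) ∧
    (∀ v ∈ V, v ≠ 0 → 0 < Nf μ v) ∧
    r = sSup {q : ℝ | ∃ v ∈ V, v ≠ 0 ∧ q = Qf μ ν α v / Nf μ v}}

def lamf (μ ν : Measure E3) (α : ℝ) (k : ℕ) : ℝ := sInf (lset μ ν α k)

lemma Nf_nonneg (μ : Measure E3) (v : E3 → ℝ) : 0 ≤ Nf μ v :=
  integral_nonneg fun _ => sq_nonneg _
lemma Df_nonneg (μ : Measure E3) (v : E3 → ℝ) : 0 ≤ Df μ v :=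
  integral_nonneg fun _ => sq_nonneg _
lemma Qf_nonneg {μ ν : Measure E3} {α : ℝ} (hα : 0 ≤ α) (v : E3 → ℝ) : 0 ≤ Qf μ ν α v :=
  add_nonneg (Df_nonneg _ _) (mul_nonneg hα (Nf_nonneg _ _))

lemma Nf_smul (μ : Measure E3) (c : ℝ) (v : E3 → ℝ) : Nf μ (c • v) = c ^ 2 * Nf μ v := by
  unfold Nf
  rw [← integral_const_mul]
  congr 1
  funext p
  simp [mul_pow]

lemma Df_smul (μ : Measure E3) (c : ℝ) {v : E3 → ℝ} (hv : ContDiff ℝ 1 v) :
    Df μ (c • v) = c ^ 2 * Df μ v := by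
  unfold Df
  rw [← integral_const_mul]
  congr 1
  funext p
  rw [fderiv_const_smul ((hv.differentiable (by norm_num)) p), norm_smul, mul_pow]
  simp

lemma Qf_smul (μ ν : Measure E3) (α c : ℝ) {v : E3 → ℝ} (hv : ContDiff ℝ 1 v) :
    Qf μ ν α (c • v) = c ^ 2 * Qf μ ν α v := by
  unfold Qf
  rw [Df_smul _ _ hv, Nf_smul]
  ring

lemma lset_bdd {μ ν : Measure E3} {α : ℝ} (hα : 0 ≤ α) (k : ℕ) : BddBelow (lset μ ν α k) := by
  refine ⟨0, ?_⟩
  rintro r ⟨V, -, -, -, rfl⟩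
  apply Real.sSup_nonneg
  rintro q ⟨v, -, -, rfl⟩
  exact div_nonneg (Qf_nonneg hα v) (Nf_nonneg _ _)

lemma Nf_zero (μ : Measure E3) : Nf μ 0 = 0 := by
  unfold Nf; simp

lemma ne_zero_of_Nf {μ : Measure E3} {v : E3 → ℝ} (h : 0 < Nf μ v) : v ≠ 0 := by
  rintro rfl
  rw [Nf_zero] at h
  exact lt_irrefl _ h

lemma lset1_mem {μ ν : Measure E3} {α : ℝ} {v : E3 → ℝ} (hv : ContDiff ℝ 1 v)
    (hN : 0 < Nf μ v) : Qf μ ν α v / Nf μ v ∈ lset μ ν α 1 := by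
  have hv0 := ne_zero_of_Nf hN
  refine ⟨Submodule.span ℝ {v}, finrank_span_singleton hv0, ?_, ?_, ?_⟩
  · intro w hw
    obtain ⟨c, rfl⟩ := Submodule.mem_span_singleton.mp hw
    exact contDiff_const.smul hv
  · intro w hw hw0
    obtain ⟨c, rfl⟩ := Submodule.mem_span_singleton.mp hw
    have hc : c ≠ 0 := by
      rintro rfl
      exact hw0 (zero_smul _ _)
    rw [Nf_smul]
    positivity
  · have hset : {q : ℝ | ∃ w ∈ Submodule.span ℝ {v}, w ≠ 0 ∧ q = Qf μ ν α w / Nf μ w}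
        = {Qf μ ν α v / Nf μ v} := by
      ext q
      constructor
      · rintro ⟨w, hw, hw0, rfl⟩
        obtain ⟨c, rfl⟩ := Submodule.mem_span_singleton.mp hw
        have hc : c ≠ 0 := by
          rintro rfl
          exact hw0 (zero_smul _ _)
        rw [Nf_smul, Qf_smul _ _ _ _ hv, mem_singleton_iff]
        field_simp
      · rintro rfl
        exact ⟨v, Submodule.mem_span_singleton_self v, hv0, rfl⟩
    rw [hset, csSup_singleton]

lemma lam1_le {μ ν : Measure E3} {α : ℝ} (hα : 0 ≤ α) {v : E3 → ℝ} (hv : ContDiff ℝ 1 v)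
    (hN : 0 < Nf μ v) : lamf μ ν α 1 ≤ Qf μ ν α v / Nf μ v :=
  csInf_le (lset_bdd hα 1) (lset1_mem hv hN)

lemma lam1_le' {μ ν : Measure E3} {α : ℝ} (hα : 0 ≤ α) {v : E3 → ℝ} (hv : ContDiff ℝ 1 v) :
    lamf μ ν α 1 * Nf μ v ≤ Qf μ ν α v := by
  rcases (Nf_nonneg μ v).eq_or_lt with h | h
  · rw [← h, mul_zero]
    exact Qf_nonneg hα v
  · have := lam1_le (ν := ν) hα hv h
    rwa [le_div_iff₀ h] at this

lemma lam1_near {μ ν : Measure E3} {α η : ℝ} (hη : 0 < η)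
    (hex : ∃ v : E3 → ℝ, ContDiff ℝ 1 v ∧ 0 < Nf μ v) :
    ∃ v : E3 → ℝ, ContDiff ℝ 1 v ∧ 0 < Nf μ v ∧ Qf μ ν α v ≤ (lamf μ ν α 1 + η) * Nf μ v := by
  obtain ⟨v0, hv0, hN0⟩ := hex
  have hne : (lset μ ν α 1).Nonempty := ⟨_, lset1_mem hv0 hN0⟩
  obtain ⟨r, ⟨V, hV1, hV2, hV3, rfl⟩, hr⟩ := exists_lt_of_csInf_lt hne
    (lt_add_of_pos_right (sInf (lset μ ν α 1)) hη)
  have hVne : V ≠ ⊥ := by
    rintro rfl
    simp at hV1
  obtain ⟨v, hvV, hv⟩ := Submodule.exists_mem_ne_zero_of_ne_bot hVne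
  have hN := hV3 v hvV hv
  have hall := (finrank_eq_one_iff_of_nonzero' (⟨v, hvV⟩ : V) (by
    intro h
    exact hv (congrArg Subtype.val h))).mp hV1
  have hset : {q : ℝ | ∃ w ∈ V, w ≠ 0 ∧ q = Qf μ ν α w / Nf μ w} = {Qf μ ν α v / Nf μ v} := by
    ext q
    constructor
    · rintro ⟨w, hw, hw0, rfl⟩
      obtain ⟨c, hc⟩ := hall ⟨w, hw⟩
      have hcw : c • v = w := congrArg Subtype.val hc
      subst hcw
      have hc : c ≠ 0 := by
        rintro rfl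
        exact hw0 (zero_smul _ _)
      rw [Nf_smul, Qf_smul _ _ _ _ (hV2 v hvV), mem_singleton_iff]
      field_simp
    · rintro rfl
      exact ⟨v, hvV, hv, rfl⟩
  rw [hset, csSup_singleton] at hr
  refine ⟨v, hV2 v hvV, hN, ?_⟩
  rw [div_lt_iff₀ hN] at hr
  exact hr.le

/-- a pair of disjointly supported functions with equal energies -/
structure Pair (μ ν : Measure E3) (α : ℝ) (φ ψ : E3 → ℝ) : Prop where
  c1 : ContDiff ℝ 1 φ
  c2 : ContDiff ℝ 1 ψ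
  N1 : 0 < Nf μ φ
  N2 : Nf μ ψ = Nf μ φ
  Q2 : Qf μ ν α ψ = Qf μ ν α φ
  d0 : ∀ p, φ p = 0 ∨ ψ p = 0
  d1 : ∀ p, fderiv ℝ φ p = 0 ∨ fderiv ℝ ψ p = 0

lemma Nf_comb {μ : Measure E3} (hμ : Good μ) {φ ψ : E3 → ℝ} (h1 : Continuous φ)
    (h2 : Continuous ψ) (d0 : ∀ p, φ p = 0 ∨ ψ p = 0) (s t : ℝ) :
    Nf μ (s • φ + t • ψ) = s ^ 2 * Nf μ φ + t ^ 2 * Nf μ ψ := by
  unfold Nf
  rw [← integral_const_mul, ← integral_const_mul,
    ← integral_add ((hμ _ (by fun_prop)).const_mul _) ((hμ _ (by fun_prop)).const_mul _)]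
  congr 1
  funext p
  simp only [Pi.add_apply, Pi.smul_apply, smul_eq_mul]
  rcases d0 p with h | h <;> rw [h] <;> ring

lemma Df_comb {μ : Measure E3} (hμ : Good μ) {φ ψ : E3 → ℝ} (h1 : ContDiff ℝ 1 φ)
    (h2 : ContDiff ℝ 1 ψ) (d1 : ∀ p, fderiv ℝ φ p = 0 ∨ fderiv ℝ ψ p = 0) (s t : ℝ) :
    Df μ (s • φ + t • ψ) = s ^ 2 * Df μ φ + t ^ 2 * Df μ ψ := by
  have e1 : Continuous (fderiv ℝ φ) := h1.continuous_fderiv (by norm_num)
  have e2 : Continuous (fderiv ℝ ψ) := h2.continuous_fderiv (by norm_num)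
  unfold Df
  rw [← integral_const_mul, ← integral_const_mul,
    ← integral_add ((hμ _ (by fun_prop)).const_mul _) ((hμ _ (by fun_prop)).const_mul _)]
  congr 1
  funext p
  have g1 : DifferentiableAt ℝ φ p := (h1.differentiable (by norm_num)) p
  have g2 : DifferentiableAt ℝ ψ p := (h2.differentiable (by norm_num)) p
  have hf : fderiv ℝ (s • φ + t • ψ) p = s • fderiv ℝ φ p + t • fderiv ℝ ψ p := by
    rw [fderiv_add (g1.const_smul s) (g2.const_smul t), fderiv_const_smul g1, fderiv_const_smul g2]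
  rw [hf]
  rcases d1 p with h | h <;> rw [h] <;> simp [norm_smul, mul_pow]

lemma lset2_mem {μ ν : Measure E3} (hμ : Good μ) (hν : Good ν) {α : ℝ} {φ ψ : E3 → ℝ}
    (h : Pair μ ν α φ ψ) : Qf μ ν α φ / Nf μ φ ∈ lset μ ν α 2 := by
  have hN := h.N1
  have hNN : ∀ s t : ℝ, Nf μ (s • φ + t • ψ) = (s ^ 2 + t ^ 2) * Nf μ φ := by
    intro s t
    rw [Nf_comb hμ h.c1.continuous h.c2.continuous h.d0, h.N2]
    ring
  have hQQ : ∀ s t : ℝ, Qf μ ν α (s • φ + t • ψ) = (s ^ 2 + t ^ 2) * Qf μ ν α φ := by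
    intro s t
    have e : Qf μ ν α (s • φ + t • ψ) = s ^ 2 * Qf μ ν α φ + t ^ 2 * Qf μ ν α ψ := by
      unfold Qf
      rw [Nf_comb hν h.c1.continuous h.c2.continuous h.d0, Df_comb hμ h.c1 h.c2 h.d1]
      ring
    rw [e, h.Q2]
    ring
  have hst : ∀ s t : ℝ, s • φ + t • ψ ≠ 0 → 0 < s ^ 2 + t ^ 2 := by
    intro s t hne
    by_contra hc
    have hs : s = 0 := by nlinarith [sq_nonneg s, sq_nonneg t]
    have ht : t = 0 := by nlinarith [sq_nonneg s, sq_nonneg t]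
    apply hne
    rw [hs, ht]
    simp
  have hli : LinearIndependent ℝ ![φ, ψ] := by
    rw [LinearIndependent.pair_iff]
    intro s t hst0
    have h1 := hNN s t
    rw [hst0, Nf_zero] at h1
    have h2 : s ^ 2 + t ^ 2 = 0 := by
      rcases mul_eq_zero.mp h1.symm with h2 | h2
      · exact h2
      · exact absurd h2 hN.ne'
    constructor
    · nlinarith [sq_nonneg s, sq_nonneg t]
    · nlinarith [sq_nonneg s, sq_nonneg t]
  refine ⟨Submodule.span ℝ {φ, ψ}, ?_, ?_, ?_, ?_⟩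
  · have h1 := finrank_span_eq_card hli
    have hr : Set.range ![φ, ψ] = {φ, ψ} := by
      ext w
      simp only [mem_range, Fin.exists_fin_two, Matrix.cons_val_zero, Matrix.cons_val_one,
        mem_insert_iff, mem_singleton_iff, eq_comm]
    rw [hr] at h1
    rw [h1]
    simp
  · intro w hw
    obtain ⟨s, t, rfl⟩ := Submodule.mem_span_pair.mp hw
    exact (contDiff_const.smul h.c1).add (contDiff_const.smul h.c2)
  · intro w hw hw0
    obtain ⟨s, t, rfl⟩ := Submodule.mem_span_pair.mp hw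
    rw [hNN]
    exact mul_pos (hst s t hw0) hN
  · have hset : {q : ℝ | ∃ w ∈ Submodule.span ℝ {φ, ψ}, w ≠ 0 ∧ q = Qf μ ν α w / Nf μ w}
        = {Qf μ ν α φ / Nf μ φ} := by
      ext q
      constructor
      · rintro ⟨w, hw, hw0, rfl⟩
        obtain ⟨s, t, rfl⟩ := Submodule.mem_span_pair.mp hw
        have := (hst s t hw0).ne'
        rw [hNN, hQQ, mem_singleton_iff]
        field_simp
      · rintro rfl
        exact ⟨φ, Submodule.subset_span (by simp), ne_zero_of_Nf hN, rfl⟩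
    rw [hset, csSup_singleton]

end Pool.Agent.Helper88.Robin
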