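import Mathlib
import Pool.Agent.Helper88.Form

open MeasureTheory Set Metric Filter Topology

noncomputable section

namespace Pool.Agent.Helper88.Robin

/-- cutoffs -/
def rho (x : ℝ) : ℝ := Real.smoothTransition (6 * x - 1)
def chi (x : ℝ) : ℝ := Real.sin (Real.pi / 2 * rho x)
def chm (x : ℝ) : ℝ := chi (-x)
def xi (x : ℝ) : ℝ := Real.cos (Real.pi / 2 * (rho x + rho (-x)))

lemma rho_zero {x : ℝ} (h : x ≤ 1 / 6) : rho x = 0 :=
  Real.smoothTransition.zero_of_nonpos (by linarith)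
lemma rho_one {x : ℝ} (h : 1 / 3 ≤ x) : rho x = 1 :=
  Real.smoothTransition.one_of_one_le (by linarith)

lemma rho_smooth : ContDiff ℝ 1 rho := by
  have h : ContDiff ℝ 1 Real.smoothTransition := Real.smoothTransition.contDiff
  exact h.comp (by fun_prop)
lemma chi_smooth : ContDiff ℝ 1 chi :=
  Real.contDiff_sin.comp (contDiff_const.mul rho_smooth)
lemma chm_smooth : ContDiff ℝ 1 chm := chi_smooth.comp contDiff_neg
lemma xi_smooth : ContDiff ℝ 1 xi :=
  Real.contDiff_cos.comp (contDiff_const.mul (rho_smooth.add (rho_smooth.comp contDiff_neg)))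

lemma chi_zero {x : ℝ} (h : x ≤ 1 / 6) : chi x = 0 := by
  rw [chi, rho_zero h]; simp
lemma chi_one {x : ℝ} (h : 1 / 3 ≤ x) : chi x = 1 := by
  rw [chi, rho_one h]; simp
lemma chm_zero {x : ℝ} (h : -(1 / 6) ≤ x) : chm x = 0 := chi_zero (by linarith)
lemma chm_one {x : ℝ} (h : x ≤ -(1 / 3)) : chm x = 1 := chi_one (by linarith)
lemma xi_zero {x : ℝ} (h : 1 / 3 ≤ x) : xi x = 0 := by
  rw [xi, rho_one h, rho_zero (by linarith)]; simp
lemma xi_zero' {x : ℝ} (h : x ≤ -(1 / 3)) : xi x = 0 := by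
  rw [xi, rho_one (x := -x) (by linarith), rho_zero (x := x) (by linarith)]; simp

lemma cut_sum (x : ℝ) : chi x ^ 2 + chm x ^ 2 + xi x ^ 2 = 1 := by
  rcases le_total x 0 with h | h
  · rw [chi_zero (by linarith), chm, chi, xi, rho_zero (x := x) (by linarith), zero_add]
    have := Real.sin_sq_add_cos_sq (Real.pi / 2 * rho (-x))
    linarith
  · rw [chm_zero (by linarith), chi, xi, rho_zero (x := -x) (by linarith), add_zero]
    have := Real.sin_sq_add_cos_sq (Real.pi / 2 * rho x)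
    linarith

lemma cut_deriv (x : ℝ) : chi x * deriv chi x + chm x * deriv chm x + xi x * deriv xi x = 0 := by
  have d1 := ((chi_smooth.differentiable (by norm_num)) x).hasDerivAt
  have d2 := ((chm_smooth.differentiable (by norm_num)) x).hasDerivAt
  have d3 := ((xi_smooth.differentiable (by norm_num)) x).hasDerivAt
  have h : HasDerivAt (fun x => chi x ^ 2 + chm x ^ 2 + xi x ^ 2)
      (2 * chi x * deriv chi x + 2 * chm x * deriv chm x + 2 * xi x * deriv xi x) x := by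
    have := ((d1.pow 2).add (d2.pow 2)).add (d3.pow 2)
    convert! this using 1
    simp
  have h0 : (fun x => chi x ^ 2 + chm x ^ 2 + xi x ^ 2) = fun _ => (1:ℝ) := funext cut_sum
  rw [h0] at h
  have := h.unique (hasDerivAt_const x 1)
  linarith

lemma cut_bound : ∃ K : ℝ, 0 ≤ K ∧ ∀ x, deriv chi x ^ 2 + deriv chm x ^ 2 + deriv xi x ^ 2 ≤
    if |x| < 1 / 2 then K else 0 := by
  have c1 : Continuous (deriv chi) := chi_smooth.continuous_deriv (by norm_num)
  have c2 : Continuous (deriv chm) := chm_smooth.continuous_deriv (by norm_num)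
  have c3 : Continuous (deriv xi) := xi_smooth.continuous_deriv (by norm_num)
  have hc : Continuous (fun x => deriv chi x ^ 2 + deriv chm x ^ 2 + deriv xi x ^ 2) := by fun_prop
  obtain ⟨K, hK⟩ := isCompact_Icc.exists_bound_of_continuousOn (s := Icc (-1:ℝ) 1) hc.continuousOn
  refine ⟨K, (norm_nonneg _).trans (hK 0 (by simp)), ?_⟩
  intro x
  split_ifs with h
  · have := hK x ⟨by linarith [(abs_lt.mp h).1], by linarith [(abs_lt.mp h).2]⟩
    exact (le_abs_self _).trans this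
  · rw [not_lt, le_abs] at h
    rcases h with h | h
    · have hn : Ioi (1/3 : ℝ) ∈ 𝓝 x := Ioi_mem_nhds (by linarith)
      have e1 : chi =ᶠ[𝓝 x] fun _ => 1 := by
        filter_upwards [hn] with y hy
        exact chi_one (le_of_lt hy)
      have e2 : chm =ᶠ[𝓝 x] fun _ => 0 := by
        filter_upwards [hn] with y hy
        have : (1/3:ℝ) < y := hy
        exact chm_zero (by linarith)
      have e3 : xi =ᶠ[𝓝 x] fun _ => 0 := by
        filter_upwards [hn] with y hy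
        exact xi_zero (le_of_lt hy)
      rw [e1.deriv_eq, e2.deriv_eq, e3.deriv_eq]
      simp
    · have hn : Iio (-(1/3) : ℝ) ∈ 𝓝 x := Iio_mem_nhds (by linarith)
      have e1 : chi =ᶠ[𝓝 x] fun _ => 0 := by
        filter_upwards [hn] with y hy
        have : y < -(1/3:ℝ) := hy
        exact chi_zero (by linarith)
      have e2 : chm =ᶠ[𝓝 x] fun _ => 1 := by
        filter_upwards [hn] with y hy
        exact chm_one (le_of_lt hy)
      have e3 : xi =ᶠ[𝓝 x] fun _ => 0 := by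
        filter_upwards [hn] with y hy
        exact xi_zero' (le_of_lt hy)
      rw [e1.deriv_eq, e2.deriv_eq, e3.deriv_eq]
      simp

/-- product with a function of the first coordinate -/
def cm (c : ℝ → ℝ) (v : E3 → ℝ) : E3 → ℝ := fun p => c (p 0) * v p

lemma x0_contDiff : ContDiff ℝ 1 (fun p : E3 => p 0) :=
  (EuclideanSpace.proj 0 : E3 →L[ℝ] ℝ).contDiff

lemma cm_smooth {c : ℝ → ℝ} (hc : ContDiff ℝ 1 c) {v : E3 → ℝ} (hv : ContDiff ℝ 1 v) :
    ContDiff ℝ 1 (cm c v) := (hc.comp x0_contDiff).mul hv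

lemma fderiv_cm {c : ℝ → ℝ} (hc : ContDiff ℝ 1 c) {v : E3 → ℝ} (hv : ContDiff ℝ 1 v) (p : E3) :
    fderiv ℝ (cm c v) p = c (p 0) • fderiv ℝ v p +
      v p • (deriv c (p 0) • (EuclideanSpace.proj 0 : E3 →L[ℝ] ℝ)) := by
  have h1 : HasFDerivAt (fun p : E3 => p 0) (EuclideanSpace.proj 0 : E3 →L[ℝ] ℝ) p :=
    (EuclideanSpace.proj 0 : E3 →L[ℝ] ℝ).hasFDerivAt
  have h2 := ((hc.differentiable (by norm_num)) (p 0)).hasDerivAt
  have h3 := h2.comp_hasFDerivAt p h1
  have h4 := ((hv.differentiable (by norm_num)) p).hasFDerivAt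
  exact (h3.mul h4).fderiv

lemma normsq_cm {c : ℝ → ℝ} (hc : ContDiff ℝ 1 c) {v : E3 → ℝ} (hv : ContDiff ℝ 1 v) (p : E3) :
    ‖fderiv ℝ (cm c v) p‖ ^ 2 = (c (p 0) * fderiv ℝ v p (bb 0) + deriv c (p 0) * v p) ^ 2 +
      (c (p 0) * fderiv ℝ v p (bb 1)) ^ 2 + (c (p 0) * fderiv ℝ v p (bb 2)) ^ 2 := by
  rw [normsq, fderiv_cm hc hv]
  simp [bb, mul_comm]

lemma ims_pt {v : E3 → ℝ} (hv : ContDiff ℝ 1 v) (p : E3) :
    ‖fderiv ℝ (cm chi v) p‖ ^ 2 + ‖fderiv ℝ (cm chm v) p‖ ^ 2 + ‖fderiv ℝ (cm xi v) p‖ ^ 2 =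
    ‖fderiv ℝ v p‖ ^ 2 +
      (deriv chi (p 0) ^ 2 + deriv chm (p 0) ^ 2 + deriv xi (p 0) ^ 2) * v p ^ 2 := by
  rw [normsq_cm chi_smooth hv, normsq_cm chm_smooth hv, normsq_cm xi_smooth hv, normsq]
  have h1 := cut_sum (p 0)
  have h2 := cut_deriv (p 0)
  generalize fderiv ℝ v p (bb 0) = a0
  generalize fderiv ℝ v p (bb 1) = a1
  generalize fderiv ℝ v p (bb 2) = a2
  linear_combination (a0 ^ 2 + a1 ^ 2 + a2 ^ 2) * h1 + 2 * a0 * v p * h2

end Pool.Agent.Helper88.Robin
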