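import Mathlib
import Pool.Agent.Helper88.Ims

open MeasureTheory Set Metric Filter Topology

noncomputable section

namespace Pool.Agent.Helper88.Robin

/-- reflection invariance of the two measures -/
structure SymM (μ ν : Measure E3) (σ : E3 ≃ₗᵢ[ℝ] E3) : Prop where
  mμ : MeasurePreserving σ μ μ
  mν : MeasurePreserving σ ν ν
  s0 : ∀ p, (σ p) 0 = - p 0

lemma Nf_refl {μ : Measure E3} {σ : E3 ≃ₗᵢ[ℝ] E3} (h : MeasurePreserving σ μ μ) (φ : E3 → ℝ) :
    Nf μ (φ ∘ σ) = Nf μ φ :=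
  h.integral_comp σ.toHomeomorph.measurableEmbedding (fun p => φ p ^ 2)

lemma Df_refl {μ : Measure E3} {σ : E3 ≃ₗᵢ[ℝ] E3} (h : MeasurePreserving σ μ μ) {φ : E3 → ℝ}
    (hφ : ContDiff ℝ 1 φ) : Df μ (φ ∘ σ) = Df μ φ := by
  have e : ∀ p, ‖fderiv ℝ (φ ∘ σ) p‖ = ‖fderiv ℝ φ (σ p)‖ := by
    intro p
    have h1 := ((hφ.differentiable (by norm_num)) (σ p)).hasFDerivAt
    have h2 : HasFDerivAt (σ : E3 → E3) ((σ : E3 ≃L[ℝ] E3) : E3 →L[ℝ] E3) p :=
      (σ : E3 ≃L[ℝ] E3).hasFDerivAt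
    have h3 := (h1.comp p h2).fderiv
    rw [h3]
    exact ContinuousLinearMap.opNorm_comp_linearIsometryEquiv _ _
  unfold Df
  simp_rw [e]
  exact h.integral_comp σ.toHomeomorph.measurableEmbedding (fun p => ‖fderiv ℝ φ p‖ ^ 2)

lemma pair_of {μ ν : Measure E3} {σ : E3 ≃ₗᵢ[ℝ] E3} (hs : SymM μ ν σ) {α : ℝ} {φ : E3 → ℝ}
    (hφ : ContDiff ℝ 1 φ) (hN : 0 < Nf μ φ) (s : ℝ) (hz : ∀ p, s * p 0 ≤ 1 / 6 → φ p = 0) :
    Pair μ ν α φ (φ ∘ σ) := by
  have hσ : ContDiff ℝ 1 (φ ∘ σ) := hφ.comp (σ : E3 ≃L[ℝ] E3).contDiff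
  refine ⟨hφ, hσ, hN, Nf_refl hs.mμ φ, ?_, ?_, ?_⟩
  · unfold Qf
    rw [Df_refl hs.mμ hφ, Nf_refl hs.mν φ]
  · intro p
    rcases le_or_gt (s * p 0) (1 / 6) with h | h
    · exact Or.inl (hz p h)
    · right
      rw [Function.comp_apply]
      apply hz
      rw [hs.s0]
      linarith
  · intro p
    have c0 := coord_cont 0
    rcases lt_or_ge (s * p 0) (1 / 6) with h | h
    · left
      have hn : {q : E3 | s * q 0 < 1 / 6} ∈ 𝓝 p :=
        (isOpen_lt (by fun_prop) (by fun_prop)).mem_nhds h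
      have he : φ =ᶠ[𝓝 p] fun _ => 0 := by
        filter_upwards [hn] with q hq
        exact hz q (le_of_lt hq)
      rw [he.fderiv_eq]
      simp
    · right
      have hsc : Continuous (fun q : E3 => (σ q) 0) := (coord_cont 0).comp σ.continuous
      have hn : {q : E3 | s * (σ q) 0 < 1 / 6} ∈ 𝓝 p := by
        refine (isOpen_lt (by fun_prop) (by fun_prop)).mem_nhds ?_
        simp only [mem_ofPred_eq, hs.s0]
        linarith
      have he : (φ ∘ σ) =ᶠ[𝓝 p] fun _ => 0 := by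
        filter_upwards [hn] with q hq
        exact hz _ (le_of_lt hq)
      rw [he.fderiv_eq]
      simp

lemma Nf_cut {μ : Measure E3} (hμ : Good μ) {v : E3 → ℝ} (hv : Continuous v) :
    Nf μ (cm chi v) + Nf μ (cm chm v) + Nf μ (cm xi v) = Nf μ v := by
  have c0 := coord_cont 0
  have c1 : Continuous chi := chi_smooth.continuous
  have c2 : Continuous chm := chm_smooth.continuous
  have c3 : Continuous xi := xi_smooth.continuous
  unfold Nf cm
  rw [← integral_add (hμ _ (by fun_prop)) (hμ _ (by fun_prop)),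
    ← integral_add (hμ _ (by fun_prop)) (hμ _ (by fun_prop))]
  congr 1
  funext p
  have := cut_sum (p 0)
  linear_combination (v p ^ 2) * this

lemma Df_cut {μ : Measure E3} (hμ : Good μ) {v : E3 → ℝ} (hv : ContDiff ℝ 1 v) :
    Df μ (cm chi v) + Df μ (cm chm v) + Df μ (cm xi v) = Df μ v +
      ∫ p, (deriv chi (p 0) ^ 2 + deriv chm (p 0) ^ 2 + deriv xi (p 0) ^ 2) * v p ^ 2 ∂μ := by
  have c0 := coord_cont 0
  have c1 : Continuous (deriv chi) := chi_smooth.continuous_deriv (by norm_num)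
  have c2 : Continuous (deriv chm) := chm_smooth.continuous_deriv (by norm_num)
  have c3 : Continuous (deriv xi) := xi_smooth.continuous_deriv (by norm_num)
  have cv := hv.continuous
  have f0 : Continuous (fderiv ℝ v) := hv.continuous_fderiv (by norm_num)
  have f1 : Continuous (fderiv ℝ (cm chi v)) :=
    (cm_smooth chi_smooth hv).continuous_fderiv (by norm_num)
  have f2 : Continuous (fderiv ℝ (cm chm v)) :=
    (cm_smooth chm_smooth hv).continuous_fderiv (by norm_num)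
  have f3 : Continuous (fderiv ℝ (cm xi v)) :=
    (cm_smooth xi_smooth hv).continuous_fderiv (by norm_num)
  unfold Df
  rw [← integral_add (hμ _ (by fun_prop)) (hμ _ (by fun_prop)),
    ← integral_add (hμ _ (by fun_prop)) (hμ _ (by fun_prop)),
    ← integral_add (hμ _ (by fun_prop)) (hμ _ (by fun_prop))]
  congr 1
  funext p
  exact ims_pt hv p

/-- splitting a near minimiser which is small in the centre -/
lemma split_bound {μ ν : Measure E3} (hμ : Good μ) (hν : Good ν) {σ : E3 ≃ₗᵢ[ℝ] E3}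
    (hs : SymM μ ν σ) {α : ℝ} (hα : 0 ≤ α) {v : E3 → ℝ} (hv : ContDiff ℝ 1 v)
    (hN : 0 < Nf μ v) {η δ K : ℝ} (hη : 0 ≤ η) (hK : 0 ≤ K)
    (hKb : ∀ x, deriv chi x ^ 2 + deriv chm x ^ 2 + deriv xi x ^ 2 ≤
      if |x| < 1 / 2 then K else 0) (hδ0 : 0 ≤ δ) (hδ : δ < 1)
    (h1 : Qf μ ν α v ≤ (lamf μ ν α 1 + η) * Nf μ v)
    (h2 : ∫ p, Cc.indicator (fun p => v p ^ 2) p ∂μ ≤ δ * Nf μ v) :
    ∃ φ ψ, Pair μ ν α φ ψ ∧
      Qf μ ν α φ ≤ (lamf μ ν α 1 + (η + K * δ) / (1 - δ)) * Nf μ φ := by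
  have c0 := coord_cont 0
  have cv := hv.continuous
  set lam := lamf μ ν α 1 with hlam
  have k1 := Nf_cut hμ cv
  have k2 := Nf_cut hν cv
  have k3 := Df_cut hμ hv
  have hci : Integrable (Cc.indicator (fun p => v p ^ 2)) μ :=
    (hμ _ (by fun_prop)).indicator Cc_meas
  have c1 : Continuous (deriv chi) := chi_smooth.continuous_deriv (by norm_num)
  have c2 : Continuous (deriv chm) := chm_smooth.continuous_deriv (by norm_num)
  have c3 : Continuous (deriv xi) := xi_smooth.continuous_deriv (by norm_num)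
  have c4 : Continuous xi := xi_smooth.continuous
  have k4 : ∫ p, (deriv chi (p 0) ^ 2 + deriv chm (p 0) ^ 2 + deriv xi (p 0) ^ 2) * v p ^ 2 ∂μ
      ≤ K * ∫ p, Cc.indicator (fun p => v p ^ 2) p ∂μ := by
    rw [← integral_const_mul]
    apply integral_mono (hμ _ (by fun_prop)) (hci.const_mul K)
    intro p
    have hb := hKb (p 0)
    by_cases hp : |p 0| < 1 / 2
    · rw [if_pos hp] at hb
      have : p ∈ Cc := hp
      simp only [indicator_of_mem this]
      exact mul_le_mul_of_nonneg_right hb (sq_nonneg _)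
    · rw [if_neg hp] at hb
      have : p ∉ Cc := hp
      simp only [indicator_of_notMem this, mul_zero]
      exact mul_nonpos_of_nonpos_of_nonneg hb (sq_nonneg _)
  have k5 : Nf μ (cm xi v) ≤ ∫ p, Cc.indicator (fun p => v p ^ 2) p ∂μ := by
    unfold Nf cm
    apply integral_mono (hμ _ (by fun_prop)) hci
    intro p
    by_cases hp : |p 0| < 1 / 2
    · have : p ∈ Cc := hp
      simp only [indicator_of_mem this]
      have := cut_sum (p 0)
      have h3 : xi (p 0) ^ 2 ≤ 1 := by nlinarith [sq_nonneg (chi (p 0)), sq_nonneg (chm (p 0))]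
      rw [mul_pow]
      nlinarith [sq_nonneg (v p)]
    · have : p ∉ Cc := hp
      simp only [indicator_of_notMem this]
      rw [not_lt, le_abs] at hp
      have : xi (p 0) = 0 := by
        rcases hp with hp | hp
        · exact xi_zero (by linarith)
        · exact xi_zero' (by linarith)
      rw [this]
      simp
  have k6 := lam1_le' (μ := μ) (ν := ν) hα (cm_smooth xi_smooth hv)
  rw [← hlam] at k6
  have n1 := Nf_nonneg μ (cm chi v)
  have n2 := Nf_nonneg μ (cm chm v)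
  have n3 := Nf_nonneg μ (cm xi v)
  have q1 := Qf_nonneg (μ := μ) (ν := ν) hα (cm chi v)
  have q2 := Qf_nonneg (μ := μ) (ν := ν) hα (cm chm v)
  have hQ : Qf μ ν α (cm chi v) + Qf μ ν α (cm chm v) + Qf μ ν α (cm xi v) = Qf μ ν α v +
      ∫ p, (deriv chi (p 0) ^ 2 + deriv chm (p 0) ^ 2 + deriv xi (p 0) ^ 2) * v p ^ 2 ∂μ := by
    unfold Qf
    linear_combination k3 + α * k2
  set I := ∫ p, Cc.indicator (fun p => v p ^ 2) p ∂μ with hI
  set κ := (η + K * δ) / (1 - δ) with hκ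
  have hδ' : 0 < 1 - δ := by linarith
  have hκ0 : 0 ≤ κ := by positivity
  set M := Nf μ (cm chi v) + Nf μ (cm chm v) with hM
  have hMge : (1 - δ) * Nf μ v ≤ M := by
    have : M = Nf μ v - Nf μ (cm xi v) := by linarith
    nlinarith
  have hMpos : 0 < M := lt_of_lt_of_le (mul_pos hδ' hN) hMge
  have hlamnn : 0 ≤ lam := by
    rw [hlam]
    apply Real.sInf_nonneg
    intro r hr
    obtain ⟨V, -, -, -, rfl⟩ := hr
    apply Real.sSup_nonneg
    rintro q ⟨w, -, -, rfl⟩
    exact div_nonneg (Qf_nonneg hα w) (Nf_nonneg _ _)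
  have hκM : (η + K * δ) * Nf μ v ≤ κ * M := by
    have : κ * ((1 - δ) * Nf μ v) = (η + K * δ) * Nf μ v := by
      rw [hκ]
      field_simp
    rw [← this]
    exact mul_le_mul_of_nonneg_left hMge hκ0
  have hmain : Qf μ ν α (cm chi v) + Qf μ ν α (cm chm v) ≤ (lam + κ) * M := by
    have e1 : K * I ≤ K * (δ * Nf μ v) := mul_le_mul_of_nonneg_left h2 hK
    have e2 : lam * M + lam * Nf μ (cm xi v) = lam * Nf μ v := by
      rw [hM, ← k1]; ring
    nlinarith
  have cases : (0 < Nf μ (cm chi v) ∧ Qf μ ν α (cm chi v) ≤ (lam + κ) * Nf μ (cm chi v)) ∨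
      (0 < Nf μ (cm chm v) ∧ Qf μ ν α (cm chm v) ≤ (lam + κ) * Nf μ (cm chm v)) := by
    rcases n1.eq_or_lt with z1 | z1
    · right
      rw [← z1, zero_add] at hM
      rw [← hM]
      exact ⟨hMpos, by linarith⟩
    · rcases n2.eq_or_lt with z2 | z2
      · left
        rw [← z2, add_zero] at hM
        rw [← hM]
        exact ⟨hMpos, by linarith⟩
      · by_cases hc : Qf μ ν α (cm chi v) ≤ (lam + κ) * Nf μ (cm chi v)
        · exact Or.inl ⟨z1, hc⟩
        · right
          refine ⟨z2, ?_⟩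
          rw [hM, mul_add] at hmain
          linarith [not_le.mp hc]
  rcases cases with ⟨hp, hq⟩ | ⟨hp, hq⟩
  · refine ⟨_, _, pair_of hs (cm_smooth chi_smooth hv) hp 1 ?_, hq⟩
    intro p h
    rw [one_mul] at h
    rw [cm, chi_zero h, zero_mul]
  · refine ⟨_, _, pair_of hs (cm_smooth chm_smooth hv) hp (-1) ?_, hq⟩
    intro p h
    rw [cm, chm_zero (by linarith), zero_mul]

end Pool.Agent.Helper88.Robin
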