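import Mathlib
import Pool.Agent.Helper88.Split

open MeasureTheory Set Metric Filter Topology

noncomputable section

namespace Pool.Agent.Helper88.Robin

/-- reflection in the first coordinate -/
def sg : E3 ≃ₗᵢ[ℝ] E3 :=
  LinearIsometryEquiv.piLpCongrRight 2
    (fun i : Fin 3 => if i = 0 then LinearIsometryEquiv.neg ℝ else LinearIsometryEquiv.refl ℝ ℝ)

lemma sg_0 (p : E3) : (sg p) 0 = - p 0 := by
  simp [sg, LinearIsometryEquiv.piLpCongrRight_apply]
lemma sg_1 (p : E3) : (sg p) 1 = p 1 := by
  simp [sg, LinearIsometryEquiv.piLpCongrRight_apply]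
lemma sg_2 (p : E3) : (sg p) 2 = p 2 := by
  simp [sg, LinearIsometryEquiv.piLpCongrRight_apply]

lemma sg_pre (a ε : ℝ) : sg ⁻¹' (Om a ε) = Om a ε := by
  ext p
  rw [mem_preimage]
  unfold Om mm
  simp only [mem_ofPred_eq, sg_0, sg_1, sg_2, abs_neg]

lemma sg_symm (a ε : ℝ) : SymM (mu a ε) (nu a ε) sg := by
  refine ⟨?_, ?_, sg_0⟩
  · have h := sg.measurePreserving.restrict_preimage (Om_isOpen a ε).measurableSet
    rw [sg_pre] at h
    exact h
  · have h0 : MeasurePreserving sg (μH[(2:ℝ)] : Measure E3) (μH[(2:ℝ)] : Measure E3) :=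
      sg.toIsometryEquiv.measurePreserving_hausdorffMeasure 2
    have h := h0.restrict_preimage (isClosed_frontier (s := Om a ε)).measurableSet
    have e : sg ⁻¹' (frontier (Om a ε)) = frontier (Om a ε) := by
      have := sg.toHomeomorph.preimage_frontier (Om a ε)
      have h2 : sg.toHomeomorph ⁻¹' (Om a ε) = Om a ε := sg_pre a ε
      rw [h2] at this
      exact this
    rw [e] at h
    exact h

end Pool.Agent.Helper88.Robin
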