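import Mathlib
import Pool.Agent.Helper88.Refl

open MeasureTheory Set Metric Filter Topology

noncomputable section

namespace Pool.Agent.Helper88.Robin

/-- trial profile concentrated near the right end -/
def ft (a x : ℝ) : ℝ := Real.smoothTransition (a * (x - 1) + 1)

lemma ft_smooth (a : ℝ) : ContDiff ℝ 1 (ft a) := by
  have h : ContDiff ℝ 1 Real.smoothTransition := Real.smoothTransition.contDiff
  exact h.comp (by fun_prop)

lemma ft_zero {a x : ℝ} (h : a * (x - 1) + 1 ≤ 0) : ft a x = 0 :=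
  Real.smoothTransition.zero_of_nonpos h
lemma ft_one (a : ℝ) : ft a 1 = 1 := by
  unfold ft
  exact Real.smoothTransition.one_of_one_le (by simp)

def Mt (a : ℝ) : ℝ := ∫ x in (-1:ℝ)..1, ft a x ^ 2 * mm a x
def Kt (a : ℝ) : ℝ := ∫ x in (-1:ℝ)..1, deriv (ft a) x ^ 2

lemma mm_ge {a x : ℝ} (hx : |x| ≤ 1) : a ≤ mm a x := by
  unfold mm
  have : 0 ≤ 2 * a ^ 2 * (1 - |x|) := mul_nonneg (by positivity) (by linarith)
  linarith

lemma mm_le {a x : ℝ} : mm a x ≤ a + 2 * a ^ 2 := by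
  unfold mm
  have : 0 ≤ 2 * a ^ 2 * |x| := by positivity
  nlinarith

lemma Mt_pos {a : ℝ} (ha : 0 < a) : 0 < Mt a := by
  have c1 : Continuous (ft a) := (ft_smooth a).continuous
  have c2 := mm_cont a
  apply intervalIntegral.integral_pos (by norm_num) (by fun_prop)
  · intro x hx
    have : 0 ≤ mm a x := ha.le.trans (mm_ge (abs_le.mpr ⟨hx.1.le, hx.2⟩))
    positivity
  · refine ⟨1, by simp, ?_⟩
    rw [ft_one]
    have : a ≤ mm a 1 := mm_ge (by simp)
    have : 0 < mm a 1 := lt_of_lt_of_le ha this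
    positivity

lemma Kt_nonneg (a : ℝ) : 0 ≤ Kt a :=
  intervalIntegral.integral_nonneg (by norm_num) (fun _ _ => sq_nonneg _)

/-- the trial function -/
def vt (a : ℝ) : E3 → ℝ := cm (ft a) (fun _ => 1)

lemma vt_smooth (a : ℝ) : ContDiff ℝ 1 (vt a) := cm_smooth (ft_smooth a) contDiff_const

lemma vt_apply (a : ℝ) (p : E3) : vt a p = ft a (p 0) := by simp [vt, cm]

lemma T_const {A ε Y : ℝ} (hA : 0 < A) (hY0 : 0 ≤ Y) (hY : Y ≤ A * ε) (c : ℝ) :
    ∫ _p in T A ε Y, c = c * (ε * Y - Y ^ 2 / (2 * A)) := by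
  rw [T_int hA hY0 hY (F := fun _ => c) continuous_const]
  have e : ∀ y : ℝ, ∫ _z in (0:ℝ)..(ε - y / A), c = c * ε - (c / A) * y := by
    intro y
    rw [intervalIntegral.integral_const, smul_eq_mul]
    ring
  simp_rw [e]
  rw [intervalIntegral.integral_sub (Continuous.intervalIntegrable (by fun_prop) _ _)
    (Continuous.intervalIntegrable (by fun_prop) _ _), intervalIntegral.integral_const,
    intervalIntegral.integral_const_mul, integral_id, smul_eq_mul]
  field_simp
  ring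

lemma mass_ge {a ε : ℝ} (ha : 3 ≤ a) (hε : 0 < ε) :
    ε ^ 2 * (1 - 3 / (2 * a)) * Mt a ≤ Nf (mu a ε) (vt a) := by
  have ha0 : 0 < a := by linarith
  have ha2 : 0 < a ^ 2 := by positivity
  have c1 : Continuous (ft a) := (ft_smooth a).continuous
  have c2 := mm_cont a
  have hc : Continuous (fun p => vt a p ^ 2) := by
    have := (vt_smooth a).continuous
    fun_prop
  have iN := Om_int (ε := ε) ha0 (mu_good ha0 _ hc)
  have e1 : Nf (mu a ε) (vt a) = _ := iN.1
  rw [e1, Mt, intervalIntegral.integral_of_le (by norm_num), integral_Ioc_eq_integral_Ioo,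
    ← integral_const_mul]
  apply setIntegral_mono_on _ iN.2 measurableSet_Ioo
  · intro x hx
    have hx1 : |x| ≤ 1 := (abs_lt.mpr hx).le
    have hY0 := (YY_pos (ε := ε) ha0 hε hx1).le
    have hYle : YY a ε x ≤ a ^ 2 * ε := min_le_right _ _
    simp only [vt_apply, P3_0]
    rw [T_const ha2 hY0 hYle]
    rcases le_or_gt (a * (x - 1) + 1) 0 with h | h
    · rw [ft_zero h]
      simp
    · have hx0 : 0 < x := by
        by_contra hx0
        have : a * (x - 1) ≤ a * (-1) := by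
          apply mul_le_mul_of_nonneg_left _ ha0.le
          linarith
        linarith
      have hm1 : mm a x ≤ 3 * a := by
        unfold mm
        rw [abs_of_pos hx0]
        nlinarith
      have hm2 : 3 * a ≤ a ^ 2 := by nlinarith
      have hY : YY a ε x = ε * mm a x := by
        unfold YY
        apply min_eq_left
        calc ε * mm a x ≤ ε * a ^ 2 := mul_le_mul_of_nonneg_left (hm1.trans hm2) hε.le
          _ = a ^ 2 * ε := by ring
      have hm0 : 0 ≤ mm a x := ha0.le.trans (mm_ge hx1)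
      rw [hY]
      have key : mm a x ^ 2 / (2 * a ^ 2) ≤ 3 / (2 * a) * mm a x := by
        rw [div_mul_eq_mul_div, div_le_div_iff₀ (by positivity) (by positivity)]
        nlinarith [mul_nonneg hm0 (sub_nonneg.mpr hm1), mul_pos ha0 ha0]
      have e : ft a x ^ 2 * (ε * (ε * mm a x) - (ε * mm a x) ^ 2 / (2 * a ^ 2))
          = ft a x ^ 2 * ε ^ 2 * (mm a x - mm a x ^ 2 / (2 * a ^ 2)) := by ring
      rw [e]
      have e' : ε ^ 2 * (1 - 3 / (2 * a)) * (ft a x ^ 2 * mm a x)
          = ft a x ^ 2 * ε ^ 2 * (mm a x - 3 / (2 * a) * mm a x) := by ring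
      rw [e']
      apply mul_le_mul_of_nonneg_left _ (by positivity)
      linarith
  · have hcc : Continuous (fun x => ε ^ 2 * (1 - 3 / (2 * a)) * (ft a x ^ 2 * mm a x)) := by
      fun_prop
    exact (hcc.continuousOn.integrableOn_Icc (a := -1) (b := 1)).mono_set Ioo_subset_Icc_self

lemma energy_le {a ε : ℝ} (ha : 0 < a) (hε : 0 < ε) :
    Df (mu a ε) (vt a) ≤ ε ^ 2 * (a + 2 * a ^ 2) * Kt a := by
  have ha2 : 0 < a ^ 2 := by positivity
  have c1 : Continuous (deriv (ft a)) := (ft_smooth a).continuous_deriv (by norm_num)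
  have e0 : ∀ p, ‖fderiv ℝ (vt a) p‖ ^ 2 = deriv (ft a) (p 0) ^ 2 := by
    intro p
    rw [vt, normsq_cm (ft_smooth a) contDiff_const]
    simp
  have c0 := coord_cont 0
  have hc : Continuous (fun p : E3 => deriv (ft a) (p 0) ^ 2) := by fun_prop
  have iN := Om_int (ε := ε) ha (mu_good ha _ hc)
  have e1 : Df (mu a ε) (vt a) = ∫ p in Om a ε, deriv (ft a) (p 0) ^ 2 := by
    unfold Df mu
    simp_rw [e0]
  rw [e1, iN.1, Kt, intervalIntegral.integral_of_le (by norm_num), integral_Ioc_eq_integral_Ioo,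
    ← integral_const_mul]
  apply setIntegral_mono_on iN.2 _ measurableSet_Ioo
  · intro x hx
    have hx1 : |x| ≤ 1 := (abs_lt.mpr hx).le
    have hY0 := (YY_pos (ε := ε) ha hε hx1).le
    have hYle : YY a ε x ≤ a ^ 2 * ε := min_le_right _ _
    simp only [P3_0]
    rw [T_const ha2 hY0 hYle]
    have hY : YY a ε x ≤ ε * (a + 2 * a ^ 2) :=
      (min_le_left _ _).trans (mul_le_mul_of_nonneg_left mm_le hε.le)
    have h1 : ε * YY a ε x - YY a ε x ^ 2 / (2 * a ^ 2) ≤ ε ^ 2 * (a + 2 * a ^ 2) := by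
      have : 0 ≤ YY a ε x ^ 2 / (2 * a ^ 2) := by positivity
      nlinarith
    calc _ ≤ deriv (ft a) x ^ 2 * (ε ^ 2 * (a + 2 * a ^ 2)) :=
          mul_le_mul_of_nonneg_left h1 (sq_nonneg _)
      _ = _ := by ring
  · have hcc : Continuous (fun x => ε ^ 2 * (a + 2 * a ^ 2) * deriv (ft a) x ^ 2) := by
      fun_prop
    exact (hcc.continuousOn.integrableOn_Icc (a := -1) (b := 1)).mono_set Ioo_subset_Icc_self

lemma bdry_le {a ε : ℝ} (ha : 3 ≤ a) (hε : 0 < ε) :
    Nf (nu a ε) (vt a) ≤ (kap : ℝ) * ((2 + (1 / a ^ 2) ^ 2) * (ε * Mt a) +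
      (2 + (2 * a ^ 2 * ε) ^ 2) * (ε * (Mt a / a)) + ε ^ 2 * a) := by
  have ha0 : 0 < a := by linarith
  have c1 : Continuous (ft a) := (ft_smooth a).continuous
  have c2 := mm_cont a
  have h := bdry_upper (ε := ε) ha0 hε c1
  have e0 : Nf (nu a ε) (vt a) = ∫ p, ft a (p 0) ^ 2 ∂(nu a ε) := by
    unfold Nf
    simp_rw [vt_apply]
  rw [e0]
  refine h.trans ?_
  have e1 : ∫ x in Icc (-1:ℝ) 1, ft a x ^ 2 * (ε * mm a x) = ε * Mt a := by
    rw [Mt, intervalIntegral.integral_of_le (by norm_num), ← integral_Icc_eq_integral_Ioc,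
      ← integral_const_mul]
    congr 1
    funext x
    ring
  have e2 : ∫ x in Icc (-1:ℝ) 1, ft a x ^ 2 * ε ≤ ε * (Mt a / a) := by
    have e3 : ε * (Mt a / a) = ∫ x in Icc (-1:ℝ) 1, ε / a * (ft a x ^ 2 * mm a x) := by
      rw [integral_const_mul, integral_Icc_eq_integral_Ioc,
        ← intervalIntegral.integral_of_le (by norm_num), ← Mt]
      ring
    rw [e3]
    apply setIntegral_mono_on (Continuous.integrableOn_Icc (by fun_prop))
      (Continuous.integrableOn_Icc (by fun_prop)) measurableSet_Icc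
    intro x hx
    have h1 := mm_ge (a := a) (abs_le.mpr hx)
    have h2 : ε ≤ ε / a * mm a x := by
      rw [div_mul_eq_mul_div, le_div_iff₀ ha0]
      exact mul_le_mul_of_nonneg_left h1 hε.le
    calc ft a x ^ 2 * ε ≤ ft a x ^ 2 * (ε / a * mm a x) :=
          mul_le_mul_of_nonneg_left h2 (sq_nonneg _)
      _ = _ := by ring
  have e4 : ft a 1 ^ 2 + ft a (-1) ^ 2 = 1 := by
    rw [ft_one, ft_zero (by linarith)]
    norm_num
  rw [e1, e4, mul_one]
  have hk : (0:ℝ) ≤ kap := kap_pos.le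
  apply mul_le_mul_of_nonneg_left _ hk
  have : (2 + (2 * a ^ 2 * ε) ^ 2) * ∫ x in Icc (-1:ℝ) 1, ft a x ^ 2 * ε ≤
      (2 + (2 * a ^ 2 * ε) ^ 2) * (ε * (Mt a / a)) :=
    mul_le_mul_of_nonneg_left e2 (by positivity)
  linarith

end Pool.Agent.Helper88.Robin
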