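import Mathlib
import Pool.Agent.Helper88.Trial

open MeasureTheory Set Metric Filter Topology

noncomputable section

namespace Pool.Agent.Helper88.Robin

lemma lamf_nonneg {μ ν : Measure E3} {α : ℝ} (hα : 0 ≤ α) (k : ℕ) : 0 ≤ lamf μ ν α k := by
  apply Real.sInf_nonneg
  intro r hr
  obtain ⟨V, -, -, -, rfl⟩ := hr
  apply Real.sSup_nonneg
  rintro q ⟨w, -, -, rfl⟩
  exact div_nonneg (Qf_nonneg hα w) (Nf_nonneg _ _)

/-- pure algebra for the parameter choice -/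
lemma algebra1 {a ε b M Ke lam N Q δ : ℝ} (ha : 3 ≤ a) (hε : 0 < ε) (hε1 : ε ≤ 1) (hb : 0 < b)
    (hM : 0 < M) (hKe : 0 ≤ Ke) (hlam : 0 ≤ lam) (had : 13 / a ≤ δ)
    (hN : ε ^ 2 * (1 - 3 / (2 * a)) * M ≤ N)
    (hQ : Q ≤ ε ^ 2 * (a + 2 * a ^ 2) * Ke + b * ((2 + (1 / a ^ 2) ^ 2) * (ε * M) +
      (2 + (2 * a ^ 2 * ε) ^ 2) * (ε * (M / a)) + ε ^ 2 * a))
    (hl : lam * N ≤ Q)
    (hs : ε * (8 * a ^ 3 + (2 * ((a + 2 * a ^ 2) * Ke + a * b) / M + b ^ 2 + δ) / b) ≤ 1 / a) :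
    lam + δ - (2 * b / ε - b ^ 2) ≤ δ * (b / ε) := by
  have ha0 : 0 < a := by linarith
  set u := 1 / a with hu
  have hu0 : 0 < u := by positivity
  have hu3 : u ≤ 1 / 3 := by
    rw [hu]; exact one_div_le_one_div_of_le (by norm_num) ha
  have hau : a * u = 1 := by rw [hu]; field_simp
  have e1 : 3 / (2 * a) = 3 / 2 * u := by rw [hu]; field_simp
  have e2 : 13 / a = 13 * u := by rw [hu]; field_simp
  have e3 : (1 / a ^ 2) ^ 2 = u ^ 4 := by rw [hu]; field_simp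
  have e4 : M / a = M * u := by rw [hu]; field_simp
  rw [e1] at hN
  rw [e2] at had
  rw [e3, e4] at hQ
  have e5 : (2 * a ^ 2 * ε) ^ 2 * u = 4 * a ^ 3 * ε ^ 2 := by
    have : (2 * a ^ 2 * ε) ^ 2 * u = 4 * a ^ 3 * ε ^ 2 * (a * u) := by ring
    rw [this, hau, mul_one]
  -- lam * (ε^2 θ M) ≤ Q
  have h1 : lam * (ε ^ 2 * (1 - 3 / 2 * u) * M) ≤ Q :=
    (mul_le_mul_of_nonneg_left hN hlam).trans hl
  have h2 : 1 ≤ (1 - 3 / 2 * u) * (1 + 3 * u) := by nlinarith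
  have h3 : lam * (ε ^ 2 * M) ≤ (1 + 3 * u) * Q := by
    have h4 : 0 ≤ lam * (ε ^ 2 * M) := by positivity
    calc lam * (ε ^ 2 * M) = 1 * (lam * (ε ^ 2 * M)) := by ring
      _ ≤ ((1 - 3 / 2 * u) * (1 + 3 * u)) * (lam * (ε ^ 2 * M)) :=
          mul_le_mul_of_nonneg_right h2 h4
      _ = (1 + 3 * u) * (lam * (ε ^ 2 * (1 - 3 / 2 * u) * M)) := by ring
      _ ≤ (1 + 3 * u) * Q := mul_le_mul_of_nonneg_left h1 (by positivity)
  set P := (a + 2 * a ^ 2) * Ke + a * b with hP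
  have hP0 : 0 ≤ P := by positivity
  have h4 : Q ≤ ε ^ 2 * P + b * ε * M * (2 + u ^ 4 + 2 * u + 4 * a ^ 3 * ε ^ 2) := by
    refine hQ.trans (le_of_eq ?_)
    rw [hP]
    linear_combination (b * ε * M) * e5
  have hu4 : u ^ 4 ≤ u := by
    have : u ^ 3 ≤ 1 := pow_le_one₀ hu0.le (by linarith)
    nlinarith
  have h5 : (1 + 3 * u) * (2 + u ^ 4 + 2 * u + 4 * a ^ 3 * ε ^ 2) ≤
      2 + 12 * u + 8 * a ^ 3 * ε ^ 2 := by
    have g1 : 0 ≤ u ^ 4 + 2 * u + 4 * a ^ 3 * ε ^ 2 := by positivity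
    nlinarith [mul_nonneg (sub_nonneg.mpr hu3) g1]
  have h6 : lam * (ε ^ 2 * M) ≤ 2 * ε ^ 2 * P + b * ε * M * (2 + 12 * u + 8 * a ^ 3 * ε ^ 2) := by
    calc lam * (ε ^ 2 * M) ≤ (1 + 3 * u) * Q := h3
      _ ≤ (1 + 3 * u) * (ε ^ 2 * P + b * ε * M * (2 + u ^ 4 + 2 * u + 4 * a ^ 3 * ε ^ 2)) :=
          mul_le_mul_of_nonneg_left h4 (by positivity)
      _ = (1 + 3 * u) * (ε ^ 2 * P) +
          b * ε * M * ((1 + 3 * u) * (2 + u ^ 4 + 2 * u + 4 * a ^ 3 * ε ^ 2)) := by ring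
      _ ≤ 2 * (ε ^ 2 * P) + b * ε * M * (2 + 12 * u + 8 * a ^ 3 * ε ^ 2) := by
          apply add_le_add
          · apply mul_le_mul_of_nonneg_right (by linarith) (by positivity)
          · exact mul_le_mul_of_nonneg_left h5 (by positivity)
      _ = _ := by ring
  have h7 : lam ≤ 2 * P / M + b / ε * (2 + 12 * u + 8 * a ^ 3 * ε ^ 2) := by
    have : lam ≤ (2 * ε ^ 2 * P + b * ε * M * (2 + 12 * u + 8 * a ^ 3 * ε ^ 2)) / (ε ^ 2 * M) := by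
      rw [le_div_iff₀ (by positivity)]
      exact h6
    refine this.trans (le_of_eq ?_)
    field_simp
  -- the smallness
  have h8 : b / ε * (8 * a ^ 3 * ε ^ 2) + (2 * P / M + b ^ 2 + δ) ≤ b / ε * u := by
    have h9 : 8 * a ^ 3 * ε ^ 2 + ε * ((2 * P / M + b ^ 2 + δ) / b) ≤ u := by
      have : 8 * a ^ 3 * ε ^ 2 ≤ ε * (8 * a ^ 3) := by
        have : ε ^ 2 ≤ ε := by nlinarith
        nlinarith [mul_le_mul_of_nonneg_left this (show 0 ≤ 8 * a ^ 3 by positivity)]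
      calc _ ≤ ε * (8 * a ^ 3) + ε * ((2 * P / M + b ^ 2 + δ) / b) := by linarith
        _ = ε * (8 * a ^ 3 + (2 * P / M + b ^ 2 + δ) / b) := by ring
        _ ≤ u := hs
    have := mul_le_mul_of_nonneg_left h9 (show 0 ≤ b / ε by positivity)
    refine le_trans (le_of_eq ?_) this
    field_simp
  have h10 : b / ε * (13 * u) ≤ b / ε * δ := mul_le_mul_of_nonneg_left had (by positivity)
  have e6 : b / ε * (2 + 12 * u + 8 * a ^ 3 * ε ^ 2) = 2 * b / ε + b / ε * (12 * u) +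
      b / ε * (8 * a ^ 3 * ε ^ 2) := by ring
  rw [e6] at h7
  have e7 : b / ε * (13 * u) = b / ε * (12 * u) + b / ε * u := by ring
  rw [e7] at h10
  linarith

lemma choose_params {δ : ℝ} (hδ : 0 < δ) : ∃ a ε : ℝ, 0 < a ∧ 0 < ε ∧ a ^ 2 * ε ≤ 1 ∧ ε ≤ 1 ∧
    0 < ((4 * kap / ε - kap ^ 2 * (1 + 4 * (a ^ 2) ^ 2)) - (2 * kap / ε - kap ^ 2) : ℝ) ∧
    lamf (mu a ε) (nu a ε) 1 1 + δ - (2 * kap / ε - kap ^ 2) ≤
      δ * ((4 * kap / ε - kap ^ 2 * (1 + 4 * (a ^ 2) ^ 2)) - (2 * kap / ε - kap ^ 2)) := by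
  have hb : (0:ℝ) < kap := kap_pos
  set b : ℝ := (kap : ℝ) with hbdef
  set a : ℝ := 3 + 13 / δ with ha
  have h13 : 0 < 13 / δ := by positivity
  have ha3 : 3 ≤ a := by linarith
  have ha0 : 0 < a := by linarith
  have had : 13 / a ≤ δ := by
    rw [div_le_iff₀ ha0]
    have : δ * a = 3 * δ + 13 := by rw [ha]; field_simp
    rw [this]; linarith
  set M := Mt a with hM
  have hM0 : 0 < M := Mt_pos ha0
  set Ke := Kt a with hKe
  have hKe0 : 0 ≤ Ke := Kt_nonneg a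
  set C := (2 * ((a + 2 * a ^ 2) * Ke + a * b) / M + b ^ 2 + δ) / b with hC
  have hC0 : 0 < C := by positivity
  set R := 1 + a ^ 2 + a * (8 * a ^ 3 + C) + 8 * a ^ 4 * b with hR
  have hR0 : 0 < R := by positivity
  set ε := 1 / R with hε
  have hε0 : 0 < ε := by positivity
  have hεR : ε * R = 1 := by rw [hε]; field_simp
  have hε1 : ε ≤ 1 := by
    have : 1 ≤ R := by
      rw [hR]
      have : 0 < a ^ 2 + a * (8 * a ^ 3 + C) + 8 * a ^ 4 * b := by positivity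
      linarith
    rw [hε]
    exact (div_le_one hR0).mpr this
  have hε2 : a ^ 2 * ε ≤ 1 := by
    have : a ^ 2 ≤ R := by
      rw [hR]
      have : 0 < 1 + a * (8 * a ^ 3 + C) + 8 * a ^ 4 * b := by positivity
      linarith
    nlinarith
  have hε3 : ε * (a * (8 * a ^ 3 + C)) ≤ 1 := by
    have : a * (8 * a ^ 3 + C) ≤ R := by
      rw [hR]
      have : 0 < 1 + a ^ 2 + 8 * a ^ 4 * b := by positivity
      linarith
    nlinarith
  have hε4 : ε * (8 * a ^ 4 * b) ≤ 1 := by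
    have : 8 * a ^ 4 * b ≤ R := by
      rw [hR]
      have : 0 < 1 + a ^ 2 + a * (8 * a ^ 3 + C) := by positivity
      linarith
    nlinarith
  have hs : ε * (8 * a ^ 3 + C) ≤ 1 / a := by
    rw [le_div_iff₀ ha0]
    linarith
  have hWW : b / ε ≤ (4 * b / ε - b ^ 2 * (1 + 4 * (a ^ 2) ^ 2)) - (2 * b / ε - b ^ 2) := by
    have h1 : b ^ 2 * (4 * a ^ 4) ≤ b / ε := by
      rw [le_div_iff₀ hε0]
      nlinarith
    have e : (4 * b / ε - b ^ 2 * (1 + 4 * (a ^ 2) ^ 2)) - (2 * b / ε - b ^ 2)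
        = b / ε + b / ε - b ^ 2 * (4 * a ^ 4) := by ring
    rw [e]
    linarith
  have hbε : 0 < b / ε := by positivity
  refine ⟨a, ε, ha0, hε0, hε2, hε1, lt_of_lt_of_le hbε hWW, ?_⟩
  have hmass := mass_ge (ε := ε) ha3 hε0
  have henergy := energy_le (ε := ε) ha0 hε0
  have hbd := bdry_le (ε := ε) ha3 hε0
  have hl := lam1_le' (μ := mu a ε) (ν := nu a ε) (α := 1) (by norm_num) (vt_smooth a)
  have hQ : Qf (mu a ε) (nu a ε) 1 (vt a) ≤ ε ^ 2 * (a + 2 * a ^ 2) * Ke +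
      b * ((2 + (1 / a ^ 2) ^ 2) * (ε * M) +
      (2 + (2 * a ^ 2 * ε) ^ 2) * (ε * (M / a)) + ε ^ 2 * a) := by
    unfold Qf
    rw [one_mul]
    exact add_le_add henergy hbd
  have := algebra1 ha3 hε0 hε1 hb hM0 hKe0 (lamf_nonneg (by norm_num) 1) had hmass hQ hl hs
  exact this.trans (mul_le_mul_of_nonneg_left hWW hδ.le)

end Pool.Agent.Helper88.Robin
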