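import Mathlib
import Pool.Agent.Helper88.Params

open MeasureTheory Set Metric Filter Topology

noncomputable section

namespace Pool.Agent.Helper88.Robin

/-- contraction towards a point of a convex set -/
lemma scale_le {Ω : Set E3} (ho : IsOpen Ω) (hc : Convex ℝ Ω) {G : E3 → ℝ}
    (hG : IntegrableOn G Ω) (h0 : ∀ p, 0 ≤ G p) {c : E3} (hcΩ : c ∈ Ω) {s : ℝ}
    (hs : 1 / 2 ≤ s) (hs1 : s ≤ 1) :
    ∫ x in Ω, G ((1 - s) • c + s • x) ≤ 8 * ∫ x in Ω, G x := by
  have hm := ho.measurableSet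
  set g := Ω.indicator G with hg
  have hgi : Integrable g := hG.integrable_indicator hm
  have hg0 : ∀ x, 0 ≤ g x := fun x => indicator_nonneg (fun _ _ => h0 _) _
  have hs0 : s ≠ 0 := by linarith
  have i2 : Integrable (fun x => g ((1 - s) • c + s • x)) :=
    (hgi.comp_add_left ((1 - s) • c)).comp_smul hs0
  have e1 : ∫ x in Ω, G ((1 - s) • c + s • x) = ∫ x in Ω, g ((1 - s) • c + s • x) := by
    apply setIntegral_congr_fun hm
    intro x hx
    simp only
    rw [hg, indicator_of_mem]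
    exact hc hcΩ hx (by linarith) (by linarith) (by ring)
  have e2 : ∫ x, g ((1 - s) • c + s • x) = |(s ^ 3)⁻¹| * ∫ x in Ω, G x := by
    have := Measure.integral_comp_smul (volume : Measure E3) (fun y => g ((1 - s) • c + y)) s
    rw [this, integral_add_left_eq_self, smul_eq_mul, hg, integral_indicator hm]
    simp
  have e3 : |(s ^ 3)⁻¹| ≤ 8 := by
    rw [abs_of_nonneg (by positivity)]
    rw [inv_le_comm₀ (by positivity) (by norm_num)]
    calc (8:ℝ)⁻¹ = (1 / 2) ^ 3 := by norm_num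
      _ ≤ s ^ 3 := pow_le_pow_left₀ (by norm_num) hs 3
  have hGnn : 0 ≤ ∫ x in Ω, G x := integral_nonneg h0
  rw [e1]
  calc ∫ x in Ω, g ((1 - s) • c + s • x) ≤ ∫ x, g ((1 - s) • c + s • x) :=
        setIntegral_le_integral i2 (Eventually.of_forall fun x => hg0 _)
    _ = |(s ^ 3)⁻¹| * ∫ x in Ω, G x := e2
    _ ≤ _ := mul_le_mul_of_nonneg_right e3 hGnn

lemma jensen01 {f : ℝ → ℝ} (hf : Continuous f) :
    (∫ t in (0:ℝ)..1, f t) ^ 2 ≤ ∫ t in (0:ℝ)..1, f t ^ 2 := by
  set c := ∫ t in (0:ℝ)..1, f t with hc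
  have h : 0 ≤ ∫ t in (0:ℝ)..1, (f t - c) ^ 2 :=
    intervalIntegral.integral_nonneg (by norm_num) (fun _ _ => sq_nonneg _)
  have e : ∫ t in (0:ℝ)..1, (f t - c) ^ 2 = (∫ t in (0:ℝ)..1, f t ^ 2) - c ^ 2 := by
    have : ∀ t, (f t - c) ^ 2 = f t ^ 2 - 2 * c * f t + c ^ 2 := by intro t; ring
    simp_rw [this]
    rw [intervalIntegral.integral_add (Continuous.intervalIntegrable (by fun_prop) _ _)
      (Continuous.intervalIntegrable (by fun_prop) _ _),
      intervalIntegral.integral_sub (Continuous.intervalIntegrable (by fun_prop) _ _)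
      (Continuous.intervalIntegrable (by fun_prop) _ _),
      intervalIntegral.integral_const_mul, ← hc]
    simp
    ring
  rw [e] at h
  linarith

lemma path_le {v : E3 → ℝ} (hv : ContDiff ℝ 1 v) (p q : E3) :
    (v p - v q) ^ 2 ≤ ‖p - q‖ ^ 2 * ∫ t in (0:ℝ)..1, ‖fderiv ℝ v (q + t • (p - q))‖ ^ 2 := by
  have hd : Continuous (fderiv ℝ v) := hv.continuous_fderiv (by norm_num)
  have hder : ∀ t : ℝ, HasDerivAt (fun t : ℝ => v (q + t • (p - q)))
      (fderiv ℝ v (q + t • (p - q)) (p - q)) t := by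
    intro t
    have h1 := ((hv.differentiable (by norm_num)) (q + t • (p - q))).hasFDerivAt
    have h2 : HasDerivAt (fun t : ℝ => q + t • (p - q)) (p - q) t := by
      have := ((hasDerivAt_id t).smul_const (p - q)).const_add q
      simpa using this
    exact h1.comp_hasDerivAt t h2
  have hcont : Continuous (fun t : ℝ => fderiv ℝ v (q + t • (p - q)) (p - q)) := by fun_prop
  have hftc := intervalIntegral.integral_eq_sub_of_hasDerivAt (fun t _ => hder t)
    (hcont.intervalIntegrable 0 1)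
  have e : v p - v q = ∫ t in (0:ℝ)..1, fderiv ℝ v (q + t • (p - q)) (p - q) := by
    rw [hftc]; simp
  rw [e]
  refine (jensen01 hcont).trans ?_
  rw [← intervalIntegral.integral_const_mul]
  apply intervalIntegral.integral_mono_on (by norm_num)
    (Continuous.intervalIntegrable (by fun_prop) _ _)
    (Continuous.intervalIntegrable (by fun_prop) _ _)
  intro t _
  have := (fderiv ℝ v (q + t • (p - q))).le_opNorm (p - q)
  rw [Real.norm_eq_abs] at this
  calc (fderiv ℝ v (q + t • (p - q)) (p - q)) ^ 2 = |fderiv ℝ v (q + t • (p - q)) (p - q)| ^ 2 :=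
        (sq_abs _).symm
    _ ≤ (‖fderiv ℝ v (q + t • (p - q))‖ * ‖p - q‖) ^ 2 :=
        pow_le_pow_left₀ (abs_nonneg _) this 2
    _ = _ := by ring

/-- convex Poincare inequality -/
lemma poincare {Ω : Set E3} (ho : IsOpen Ω) (hc : Convex ℝ Ω) (hb : Bornology.IsBounded Ω)
    (hne : Ω.Nonempty) {d2 : ℝ} (hd : ∀ p ∈ Ω, ∀ q ∈ Ω, ‖p - q‖ ^ 2 ≤ d2) {v : E3 → ℝ}
    (hv : ContDiff ℝ 1 v) (h0 : ∫ p in Ω, v p = 0) :
    ∫ p in Ω, v p ^ 2 ≤ 4 * d2 * ∫ p in Ω, ‖fderiv ℝ v p‖ ^ 2 := by
  have hm := ho.measurableSet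
  have hvc := hv.continuous
  have hdc : Continuous (fderiv ℝ v) := hv.continuous_fderiv (by norm_num)
  set G : E3 → ℝ := fun p => ‖fderiv ℝ v p‖ ^ 2 with hG
  have hGc : Continuous G := by fun_prop
  have hG0 : ∀ p, 0 ≤ G p := fun p => sq_nonneg _
  set μ := (volume : Measure E3).restrict Ω with hμ
  have hfin : IsFiniteMeasure μ :=
    ⟨by rw [hμ, Measure.restrict_apply_univ]; exact hb.measure_lt_top⟩
  set m := μ.real univ with hmdef
  have hmpos : 0 < m := by
    rw [hmdef, hμ, measureReal_restrict_apply_univ]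
    exact ENNReal.toReal_pos (ho.measure_pos _ hne).ne' hb.measure_lt_top.ne
  set τ := (volume : Measure ℝ).restrict (Icc 0 1) with hτ
  have hK : IsCompact (closure Ω) := hb.isCompact_closure
  have i1 : ∀ F : E3 → ℝ, Continuous F → Integrable F μ := fun F hF =>
    (hF.continuousOn.integrableOn_compact hK).mono_set subset_closure
  have i2 : ∀ F : E3 × E3 → ℝ, Continuous F → Integrable F (μ.prod μ) := by
    intro F hF
    rw [hμ, Measure.prod_restrict]
    exact (hF.continuousOn.integrableOn_compact (hK.prod hK)).mono_set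
      (prod_mono subset_closure subset_closure)
  have i3 : ∀ F : (E3 × E3) × ℝ → ℝ, Continuous F → Integrable F ((μ.prod μ).prod τ) := by
    intro F hF
    rw [hμ, hτ, Measure.prod_restrict, Measure.prod_restrict]
    exact (hF.continuousOn.integrableOn_compact ((hK.prod hK).prod isCompact_Icc)).mono_set
      (prod_mono (prod_mono subset_closure subset_closure) le_rfl)
  have hGI : 0 ≤ ∫ p, G p ∂μ := integral_nonneg hG0
  -- the double integral
  have hdouble : ∫ z, (v z.1 - v z.2) ^ 2 ∂(μ.prod μ) = 2 * m * ∫ p, v p ^ 2 ∂μ := by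
    have e : ∀ z : E3 × E3, (v z.1 - v z.2) ^ 2 = v z.1 ^ 2 - 2 * (v z.1 * v z.2) + v z.2 ^ 2 := by
      intro z; ring
    simp_rw [e]
    rw [integral_add (i2 _ (by fun_prop)) (i2 _ (by fun_prop)),
      integral_sub (i2 _ (by fun_prop)) (i2 _ (by fun_prop)), integral_const_mul,
      integral_prod_mul (fun p => v p) (fun p => v p), h0,
      integral_prod _ (i2 (fun z => v z.1 ^ 2) (by fun_prop)),
      integral_prod _ (i2 (fun z => v z.2 ^ 2) (by fun_prop))]
    simp only [integral_const, smul_eq_mul, ← hmdef, integral_const_mul]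
    ring
  -- the path estimate
  have hpath : ∫ z, (v z.1 - v z.2) ^ 2 ∂(μ.prod μ) ≤
      d2 * ∫ z, (∫ t, G (z.2 + t • (z.1 - z.2)) ∂τ) ∂(μ.prod μ) := by
    rw [← integral_const_mul]
    have hΦ := i3 (fun w => G (w.1.2 + w.2 • (w.1.1 - w.1.2))) (by fun_prop)
    have i4 : Integrable (fun z : E3 × E3 => ∫ t, G (z.2 + t • (z.1 - z.2)) ∂τ) (μ.prod μ) :=
      hΦ.integral_prod_left
    have hpr : μ.prod μ = (volume : Measure (E3 × E3)).restrict (Ω ×ˢ Ω) := by
      rw [hμ, Measure.prod_restrict, Measure.volume_eq_prod]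
    have j1 := i2 (fun z => (v z.1 - v z.2) ^ 2) (by fun_prop)
    have j2 := i4.const_mul d2
    rw [hpr] at j1 j2 ⊢
    apply setIntegral_mono_on j1 j2 (hm.prod hm)
    rintro ⟨p, q⟩ ⟨hp, hq⟩
    simp only at hp hq ⊢
    have h1 := path_le hv p q
    have e : ∫ t in (0:ℝ)..1, ‖fderiv ℝ v (q + t • (p - q))‖ ^ 2
        = ∫ t, G (q + t • (p - q)) ∂τ := by
      rw [intervalIntegral.integral_of_le (by norm_num), ← integral_Icc_eq_integral_Ioc]
    rw [e] at h1
    refine h1.trans (mul_le_mul_of_nonneg_right (hd p hp q hq) ?_)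
    exact integral_nonneg fun t => hG0 _
  -- swap
  have hswap : ∫ z, (∫ t, G (z.2 + t • (z.1 - z.2)) ∂τ) ∂(μ.prod μ) =
      ∫ t, (∫ z, G (z.2 + t • (z.1 - z.2)) ∂(μ.prod μ)) ∂τ := by
    apply integral_integral_swap
    exact i3 (fun w => G (w.1.2 + w.2 • (w.1.1 - w.1.2))) (by fun_prop)
  have hH : ∀ t ∈ Icc (0:ℝ) 1, ∫ z, G (z.2 + t • (z.1 - z.2)) ∂(μ.prod μ) ≤
      8 * m * ∫ p, G p ∂μ := by
    intro t ht
    have it := i2 (fun z => G (z.2 + t • (z.1 - z.2))) (by fun_prop)
    have hconst : 8 * m * ∫ p, G p ∂μ = ∫ _p : E3, 8 * (∫ p, G p ∂μ) ∂μ := by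
      rw [integral_const, smul_eq_mul, ← hmdef]
      ring
    rcases le_total (1 / 2) t with h | h
    · rw [integral_prod_symm _ it, hconst]
      have j1 := it.integral_prod_right
      refine setIntegral_mono_on j1 (integrable_const _) hm ?_
      intro q hq
      have := scale_le ho hc (i1 G hGc) hG0 hq h ht.2
      refine le_trans (le_of_eq ?_) this
      congr 1
      funext x
      congr 1
      module
    · rw [integral_prod _ it, hconst]
      have j1 := it.integral_prod_left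
      refine setIntegral_mono_on j1 (integrable_const _) hm ?_
      intro p hp
      have := scale_le ho hc (i1 G hGc) hG0 hp (s := 1 - t) (by linarith) (by linarith [ht.1])
      refine le_trans (le_of_eq ?_) this
      congr 1
      funext x
      congr 1
      simp only [sub_sub_cancel]
      module
  have hfinal : ∫ t, (∫ z, G (z.2 + t • (z.1 - z.2)) ∂(μ.prod μ)) ∂τ ≤ 8 * m * ∫ p, G p ∂μ := by
    have j1 : Integrable (fun t => ∫ z, G (z.2 + t • (z.1 - z.2)) ∂(μ.prod μ)) τ :=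
      (i3 (fun w => G (w.1.2 + w.2 • (w.1.1 - w.1.2))) (by fun_prop)).integral_prod_right
    have hfτ : IsFiniteMeasure τ :=
      ⟨by rw [hτ, Measure.restrict_apply_univ]; exact measure_Icc_lt_top⟩
    have := setIntegral_mono_on (s := Icc (0:ℝ) 1) j1
      (integrable_const (8 * m * ∫ p, G p ∂μ)) measurableSet_Icc hH
    refine this.trans (le_of_eq ?_)
    rw [integral_const, smul_eq_mul]
    simp
  have hd0 : 0 ≤ d2 := by
    obtain ⟨p, hp⟩ := hne
    exact (sq_nonneg _).trans (hd p hp p hp)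
  rw [hdouble, hswap] at hpath
  have hchain : 2 * m * ∫ p, v p ^ 2 ∂μ ≤ d2 * (8 * m * ∫ p, G p ∂μ) :=
    hpath.trans (mul_le_mul_of_nonneg_left hfinal hd0)
  have e1 : d2 * (8 * m * ∫ p, G p ∂μ) = (2 * m) * (4 * d2 * ∫ p, G p ∂μ) := by ring
  rw [e1] at hchain
  exact le_of_mul_le_mul_left hchain (by positivity)

end Pool.Agent.Helper88.Robin
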