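import Mathlib
import Pool.Agent.Helper88.Poinc

open MeasureTheory Set Metric Filter Topology

noncomputable section

namespace Pool.Agent.Helper88.Robin

lemma Nf_add_le {μ : Measure E3} (hμ : Good μ) {u w : E3 → ℝ} (hu : Continuous u)
    (hw : Continuous w) : Nf μ (u + w) ≤ 2 * Nf μ u + 2 * Nf μ w := by
  unfold Nf
  rw [← integral_const_mul, ← integral_const_mul,
    ← integral_add ((hμ _ (by fun_prop)).const_mul _) ((hμ _ (by fun_prop)).const_mul _)]
  apply integral_mono (hμ _ (by fun_prop))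
    (((hμ _ (by fun_prop)).const_mul _).add ((hμ _ (by fun_prop)).const_mul _))
  intro p
  simp only [Pi.add_apply]
  nlinarith [sq_nonneg (u p - w p)]

lemma Df_add_le {μ : Measure E3} (hμ : Good μ) {u w : E3 → ℝ} (hu : ContDiff ℝ 1 u)
    (hw : ContDiff ℝ 1 w) : Df μ (u + w) ≤ 2 * Df μ u + 2 * Df μ w := by
  have e1 : Continuous (fderiv ℝ u) := hu.continuous_fderiv (by norm_num)
  have e2 : Continuous (fderiv ℝ w) := hw.continuous_fderiv (by norm_num)
  have e3 : Continuous (fderiv ℝ (u + w)) := (hu.add hw).continuous_fderiv (by norm_num)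
  unfold Df
  rw [← integral_const_mul, ← integral_const_mul,
    ← integral_add ((hμ _ (by fun_prop)).const_mul _) ((hμ _ (by fun_prop)).const_mul _)]
  apply integral_mono (hμ _ (by fun_prop))
    (((hμ _ (by fun_prop)).const_mul _).add ((hμ _ (by fun_prop)).const_mul _))
  intro p
  simp only [Pi.add_apply]
  rw [fderiv_add ((hu.differentiable (by norm_num)) p) ((hw.differentiable (by norm_num)) p)]
  have h := norm_add_le (fderiv ℝ u p) (fderiv ℝ w p)
  have h2 : ‖fderiv ℝ u p + fderiv ℝ w p‖ ^ 2 ≤ (‖fderiv ℝ u p‖ + ‖fderiv ℝ w p‖) ^ 2 :=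
    pow_le_pow_left₀ (norm_nonneg _) h 2
  nlinarith [sq_nonneg (‖fderiv ℝ u p‖ - ‖fderiv ℝ w p‖)]

lemma Qf_add_le {μ ν : Measure E3} (hμ : Good μ) (hν : Good ν) {α : ℝ} (hα : 0 ≤ α)
    {u w : E3 → ℝ} (hu : ContDiff ℝ 1 u) (hw : ContDiff ℝ 1 w) :
    Qf μ ν α (u + w) ≤ 2 * Qf μ ν α u + 2 * Qf μ ν α w := by
  have h1 := Df_add_le hμ hu hw
  have h2 := mul_le_mul_of_nonneg_left (Nf_add_le hν hu.continuous hw.continuous) hα
  unfold Qf
  linarith

lemma Nf_quad {μ : Measure E3} (hμ : Good μ) {u w : E3 → ℝ} (hu : Continuous u)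
    (hw : Continuous w) (s t : ℝ) : Nf μ (s • u + t • w) =
      s ^ 2 * Nf μ u + 2 * s * t * (∫ p, u p * w p ∂μ) + t ^ 2 * Nf μ w := by
  unfold Nf
  rw [← integral_const_mul, ← integral_const_mul, ← integral_const_mul,
    ← integral_add ((hμ _ (by fun_prop)).const_mul _) ((hμ _ (by fun_prop)).const_mul _),
    ← integral_add (hμ _ (by fun_prop)) ((hμ _ (by fun_prop)).const_mul _)]
  congr 1
  funext p
  simp only [Pi.add_apply, Pi.smul_apply, smul_eq_mul]
  ring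

lemma rq_bdd {μ ν : Measure E3} (hμ : Good μ) (hν : Good ν) {α : ℝ} (hα : 0 ≤ α)
    {V : Submodule ℝ (E3 → ℝ)} (hV : Module.finrank ℝ V = 2) (hc : ∀ v ∈ V, ContDiff ℝ 1 v)
    (hp : ∀ v ∈ V, v ≠ 0 → 0 < Nf μ v) :
    BddAbove {q : ℝ | ∃ v ∈ V, v ≠ 0 ∧ q = Qf μ ν α v / Nf μ v} := by
  have hfd : FiniteDimensional ℝ V := FiniteDimensional.of_finrank_pos (by omega)
  let b := (Module.finBasisOfFinrankEq ℝ V hV)
  set u : E3 → ℝ := (b 0 : E3 → ℝ) with hu
  set w : E3 → ℝ := (b 1 : E3 → ℝ) with hw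
  have huV : u ∈ V := (b 0).2
  have hwV : w ∈ V := (b 1).2
  have hu1 := hc u huV
  have hw1 := hc w hwV
  have hrep : ∀ v ∈ V, ∃ s t : ℝ, v = s • u + t • w := by
    intro v hv
    have := b.sum_repr ⟨v, hv⟩
    rw [Fin.sum_univ_two] at this
    refine ⟨b.repr ⟨v, hv⟩ 0, b.repr ⟨v, hv⟩ 1, ?_⟩
    have h2 := congrArg Subtype.val this
    simpa using h2.symm
  have hli : ∀ s t : ℝ, s • u + t • w = 0 → s = 0 ∧ t = 0 := by
    intro s t hst
    have h1 := b.linearIndependent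
    have h2 : s • b 0 + t • b 1 = 0 := by
      apply Subtype.ext
      simpa using hst
    rw [Fintype.linearIndependent_iff] at h1
    have h3 := h1 ![s, t] (by rw [Fin.sum_univ_two]; simpa using h2)
    exact ⟨h3 0, h3 1⟩
  set A := Nf μ u with hA
  set D := Nf μ w with hD
  set B := ∫ p, u p * w p ∂μ with hB
  have hA0 : 0 < A := hp u huV (by
    intro h
    have := hli 1 0 (by rw [h]; simp)
    exact one_ne_zero this.1)
  have hD0 : 0 < D := hp w hwV (by
    intro h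
    have := hli 0 1 (by rw [h]; simp)
    exact one_ne_zero this.2)
  have hdet : 0 < A * D - B ^ 2 := by
    have h1 : B • u + (-A) • w ≠ 0 := by
      intro h
      have := (hli _ _ h).2
      linarith
    have h2 := hp _ (V.add_mem (V.smul_mem B huV) (V.smul_mem (-A) hwV)) h1
    rw [Nf_quad hμ hu1.continuous hw1.continuous, ← hA, ← hD, ← hB] at h2
    have h3 : B ^ 2 * A + 2 * B * -A * B + (-A) ^ 2 * D = A * (A * D - B ^ 2) := by ring
    rw [h3] at h2
    exact (pos_iff_pos_of_mul_pos h2).mp hA0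
  set E := 2 * (Qf μ ν α u + Qf μ ν α w) with hE
  have hE0 : 0 ≤ E := by
    have := Qf_nonneg (μ := μ) (ν := ν) hα u
    have := Qf_nonneg (μ := μ) (ν := ν) hα w
    positivity
  refine ⟨E * ((A + D) / (A * D - B ^ 2)), ?_⟩
  rintro q ⟨v, hv, hv0, rfl⟩
  obtain ⟨s, t, rfl⟩ := hrep v hv
  have hNp := hp _ hv hv0
  rw [div_le_iff₀ hNp]
  have h1 : Qf μ ν α (s • u + t • w) ≤ E * (s ^ 2 + t ^ 2) := by
    have h2 := Qf_add_le hμ hν hα (u := s • u) (w := t • w)
      (contDiff_const.smul hu1) (contDiff_const.smul hw1)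
    rw [Qf_smul _ _ _ _ hu1, Qf_smul _ _ _ _ hw1] at h2
    have g1 := Qf_nonneg (μ := μ) (ν := ν) hα u
    have g2 := Qf_nonneg (μ := μ) (ν := ν) hα w
    rw [hE]
    nlinarith [mul_nonneg (sq_nonneg s) g2, mul_nonneg (sq_nonneg t) g1]
  have h2 : s ^ 2 + t ^ 2 ≤ (A + D) / (A * D - B ^ 2) * Nf μ (s • u + t • w) := by
    rw [Nf_quad hμ hu1.continuous hw1.continuous, ← hA, ← hD, ← hB, div_mul_eq_mul_div,
      le_div_iff₀ hdet]
    nlinarith [sq_nonneg (A * s + B * t), sq_nonneg (B * s + D * t)]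
  calc Qf μ ν α (s • u + t • w) ≤ E * (s ^ 2 + t ^ 2) := h1
    _ ≤ E * ((A + D) / (A * D - B ^ 2) * Nf μ (s • u + t • w)) :=
        mul_le_mul_of_nonneg_left h2 hE0
    _ = _ := by ring

lemma lset_ne_of {μ ν : Measure E3} {α β : ℝ} {k : ℕ} (h : (lset μ ν α k).Nonempty) :
    (lset μ ν β k).Nonempty := by
  obtain ⟨r, V, h1, h2, h3, -⟩ := h
  exact ⟨_, V, h1, h2, h3, rfl⟩

lemma lam2_ge {μ ν : Measure E3} (hμ : Good μ) (hν : Good ν) {α : ℝ} (hα : 0 ≤ α) {C : ℝ}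
    (hC : 0 < C) (hP : ∀ v : E3 → ℝ, ContDiff ℝ 1 v → ∫ p, v p ∂μ = 0 → Nf μ v ≤ C * Df μ v)
    (hne : (lset μ ν α 2).Nonempty) : 1 / C ≤ lamf μ ν α 2 := by
  apply le_csInf hne
  rintro r ⟨V, hV, hc, hp, rfl⟩
  have hfd : FiniteDimensional ℝ V := FiniteDimensional.of_finrank_pos (by omega)
  have hint : ∀ v : V, Integrable (v : E3 → ℝ) μ := fun v => hμ _ (hc v v.2).continuous
  let L : V →ₗ[ℝ] ℝ :=
    { toFun := fun v => ∫ p, (v : E3 → ℝ) p ∂μ
      map_add' := by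
        intro v w
        simp only [Submodule.coe_add, Pi.add_apply]
        exact integral_add (hint v) (hint w)
      map_smul' := by
        intro c v
        simp only [SetLike.val_smul, Pi.smul_apply, smul_eq_mul, RingHom.id_apply]
        exact integral_const_mul _ _ }
  have hker : LinearMap.ker L ≠ ⊥ := by
    apply LinearMap.ker_ne_bot_of_finrank_lt
    rw [hV]
    simp
  obtain ⟨v, hvk, hv0⟩ := Submodule.exists_mem_ne_zero_of_ne_bot hker
  have hv1 : ContDiff ℝ 1 (v : E3 → ℝ) := hc v v.2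
  have hvne : (v : E3 → ℝ) ≠ 0 := by
    intro h
    exact hv0 (Subtype.ext h)
  have hvi : ∫ p, (v : E3 → ℝ) p ∂μ = 0 := hvk
  have h1 := hP v hv1 hvi
  have hN := hp v v.2 hvne
  have h2 : 1 / C ≤ Qf μ ν α v / Nf μ v := by
    rw [div_le_div_iff₀ hC hN, one_mul]
    have : 0 ≤ α * Nf ν v := mul_nonneg hα (Nf_nonneg _ _)
    unfold Qf
    nlinarith
  exact h2.trans (le_csSup (rq_bdd hμ hν hα hV hc hp) ⟨v, v.2, hvne, rfl⟩)

end Pool.Agent.Helper88.Robin
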