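import Mathlib
import Pool.Agent.Helper88.Small

open MeasureTheory Set Metric Filter Topology

noncomputable section

namespace Pool.Agent.Helper88.Robin

lemma Om_diam {a ε : ℝ} (ha : 0 < a) (h1 : a ^ 2 * ε ≤ 1) (h2 : ε ≤ 1) :
    ∀ p ∈ Om a ε, ∀ q ∈ Om a ε, ‖p - q‖ ^ 2 ≤ 6 := by
  intro p hp q hq
  obtain ⟨p0, p1, p2⟩ := Om_box ha hp
  obtain ⟨q0, q1, q2⟩ := Om_box ha hq
  rw [← dist_eq_norm, dist3]
  have g0 : (p 0 - q 0) ^ 2 ≤ 4 := by
    have := abs_le.mpr (show -2 ≤ p 0 - q 0 ∧ p 0 - q 0 ≤ 2 from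
      ⟨by linarith [p0.1, q0.2], by linarith [p0.2, q0.1]⟩)
    rw [← sq_abs]
    calc _ ≤ (2:ℝ) ^ 2 := pow_le_pow_left₀ (abs_nonneg _) this 2
      _ = 4 := by norm_num
  have g1 : (p 1 - q 1) ^ 2 ≤ 1 := by
    have := abs_le.mpr (show -1 ≤ p 1 - q 1 ∧ p 1 - q 1 ≤ 1 from
      ⟨by linarith [p1.1, q1.2], by linarith [p1.2, q1.1]⟩)
    rw [← sq_abs]
    calc _ ≤ (1:ℝ) ^ 2 := pow_le_pow_left₀ (abs_nonneg _) this 2
      _ = 1 := by norm_num
  have g2 : (p 2 - q 2) ^ 2 ≤ 1 := by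
    have := abs_le.mpr (show -1 ≤ p 2 - q 2 ∧ p 2 - q 2 ≤ 1 from
      ⟨by linarith [p2.1, q2.2], by linarith [p2.2, q2.1]⟩)
    rw [← sq_abs]
    calc _ ≤ (1:ℝ) ^ 2 := pow_le_pow_left₀ (abs_nonneg _) this 2
      _ = 1 := by norm_num
  linarith

lemma one_smooth : ContDiff ℝ 1 (fun _ : E3 => (1:ℝ)) := contDiff_const

/-- the gap of the thin polytope is not monotone -/
theorem main : ∃ a ε α : ℝ, 0 < a ∧ 0 < ε ∧ 0 < α ∧ α < 1 ∧
    lamf (mu a ε) (nu a ε) 1 2 - lamf (mu a ε) (nu a ε) 1 1 <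
      lamf (mu a ε) (nu a ε) α 2 - lamf (mu a ε) (nu a ε) α 1 := by
  obtain ⟨K, hK0, hK⟩ := cut_bound
  set δ : ℝ := 1 / (100 * (1 + K)) with hδ
  have hK1 : 0 < 1 + K := by linarith
  have hδ0 : 0 < δ := by positivity
  have hδK : δ * (1 + K) = 1 / 100 := by rw [hδ]; field_simp
  have hδ1 : δ ≤ 1 / 100 := by nlinarith
  obtain ⟨a, ε, ha, hε, hbox, hε1, hW, hparam⟩ := choose_params hδ0
  have hμ := mu_good (ε := ε) ha
  have hν := nu_good (ε := ε) ha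
  have hfμ := mu_fin (ε := ε) ha
  have hfν := nu_fin (ε := ε) ha
  set μ := mu a ε with hμdef
  set ν := nu a ε with hνdef
  have hvol : 0 < Nf μ (fun _ => (1:ℝ)) := by
    unfold Nf
    simp only [one_pow, integral_const, smul_eq_mul, mul_one]
    rw [hμdef, mu, measureReal_restrict_apply_univ]
    exact ENNReal.toReal_pos ((Om_isOpen a ε).measure_pos _ (Om_nonempty ha hε)).ne'
      (Om_bounded ha).measure_lt_top.ne
  -- the gap at parameter 1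
  obtain ⟨v, hv, hN, hQ⟩ := lam1_near (μ := μ) (ν := ν) (α := 1) hδ0 ⟨_, one_smooth, hvol⟩
  have hlow := Q_lower ha hε hv
  rw [← hμdef, ← hνdef] at hlow
  have hN' : Nf μ v = ∫ p, v p ^ 2 ∂μ := rfl
  have hQ' : Qf μ ν 1 v = (∫ p, ‖fderiv ℝ v p‖ ^ 2 ∂μ) + ∫ p, v p ^ 2 ∂ν := by
    unfold Qf Df Nf
    rw [one_mul]
  rw [← hN', ← hQ'] at hlow
  have hcen : ∫ p, Cc.indicator (fun p => v p ^ 2) p ∂μ ≤ δ * Nf μ v := by
    set I := ∫ p, Cc.indicator (fun p => v p ^ 2) p ∂μ with hI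
    set W0 := (2 * kap / ε - kap ^ 2 : ℝ) with hW0
    set WW := ((4 * kap / ε - kap ^ 2 * (1 + 4 * (a ^ 2) ^ 2)) - W0 : ℝ) with hWW
    have h1 : WW * I ≤ (δ * WW) * Nf μ v := by
      have h2 := mul_le_mul_of_nonneg_right hparam hN.le
      nlinarith
    have h3 : WW * I ≤ WW * (δ * Nf μ v) := by
      calc WW * I ≤ (δ * WW) * Nf μ v := h1
        _ = _ := by ring
    exact le_of_mul_le_mul_left h3 hW
  obtain ⟨φ, ψ, hpair, hφ⟩ := split_bound hμ hν (sg_symm a ε) (α := 1) (by norm_num) hv hN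
    hδ0.le hK0 hK hδ0.le (by linarith) hQ hcen
  have hκ : (δ + K * δ) / (1 - δ) ≤ 1 / 99 := by
    rw [div_le_div_iff₀ (by linarith) (by norm_num)]
    nlinarith
  have hmem := lset2_mem hμ hν hpair
  have h2le : lamf μ ν 1 2 ≤ lamf μ ν 1 1 + 1 / 99 := by
    have h3 : lamf μ ν 1 2 ≤ Qf μ ν 1 φ / Nf μ φ := csInf_le (lset_bdd (by norm_num) 2) hmem
    refine h3.trans ?_
    rw [div_le_iff₀ hpair.N1]
    refine hφ.trans (mul_le_mul_of_nonneg_right (by linarith) hpair.N1.le)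
  -- small parameter
  set P := Nf ν (fun _ => (1:ℝ)) with hP
  have hP0 : 0 ≤ P := Nf_nonneg _ _
  set M := Nf μ (fun _ => (1:ℝ)) with hM
  set α : ℝ := min (1 / 2) (M / (48 * (P + 1))) with hα
  have hα0 : 0 < α := lt_min (by norm_num) (by positivity)
  have hα1 : α < 1 := lt_of_le_of_lt (min_le_left _ _) (by norm_num)
  have hα2 : α ≤ M / (48 * (P + 1)) := min_le_right _ _
  have hDone : Df μ (fun _ => (1:ℝ)) = 0 := by
    unfold Df
    simp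
  have hl1 : lamf μ ν α 1 ≤ 1 / 48 := by
    refine (lam1_le (ν := ν) hα0.le one_smooth hvol).trans ?_
    unfold Qf
    rw [hDone, ← hP, ← hM, zero_add, div_le_div_iff₀ hvol (by norm_num)]
    rw [le_div_iff₀ (by positivity)] at hα2
    nlinarith
  have hpoin : ∀ w : E3 → ℝ, ContDiff ℝ 1 w → ∫ p, w p ∂μ = 0 → Nf μ w ≤ 24 * Df μ w := by
    intro w hw hw0
    have := poincare (Om_isOpen a ε) (Om_convex hε) (Om_bounded ha) (Om_nonempty ha hε)
      (Om_diam ha hbox hε1) hw hw0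
    have e : (4:ℝ) * 6 = 24 := by norm_num
    rw [e] at this
    exact this
  have hl2 := lam2_ge hμ hν hα0.le (C := 24) (by norm_num) hpoin (lset_ne_of ⟨_, hmem⟩)
  refine ⟨a, ε, α, ha, hε, hα0, hα1, ?_⟩
  rw [← hμdef, ← hνdef]
  linarith

end Pool.Agent.Helper88.Robin
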